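import Pool.Agent.H27.PM.Even

/-!
# The edge bound for triangle-free minors of an abstract planar map

`V`, `E`, `Φ`: vertices, edges, faces; the edge `e` joins `a e` and `b e` and has the faces `l e`
and `r e` on its two sides.
-/

set_option autoImplicit false

namespace Pool.Agent.H27.PM

open SimpleGraph

section classes

variable {Φ E : Type*}

/-- merging the two faces at each edge of `P` -/
def Mrg (l r : E → Φ) (P : Finset E) (f g : Φ) : Prop := ∃ e ∈ P, l e = f ∧ r e = g

/-- the number of classes is at least the number of faces minus the number of merged edges -/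
theorem card_quot [Fintype Φ] (l r : E → Φ) (P : Finset E) :
    Fintype.card Φ ≤ Nat.card (Quot (Mrg l r P)) + P.card := by
  classical
  have : Fintype (Quot (Mrg l r P)) := Fintype.ofFinite _
  let D : (Φ → ZMod 2) →ₗ[ZMod 2] (P → ZMod 2) :=
    { toFun := fun A e => A (l e.1) + A (r e.1)
      map_add' := by intro A B; funext e; simp only [Pi.add_apply]; ring
      map_smul' := by intro c A; funext e; simp only [Pi.smul_apply, smul_eq_mul, RingHom.id_apply]; ring }
  let L : (Quot (Mrg l r P) → ZMod 2) →ₗ[ZMod 2] (Φ → ZMod 2) :=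
    LinearMap.funLeft (ZMod 2) (ZMod 2) (Quot.mk (Mrg l r P))
  have h1 : LinearMap.ker D ≤ LinearMap.range L := by
    intro A hA
    refine ⟨Quot.lift A ?_, ?_⟩
    · rintro f g ⟨e, he, rfl, rfl⟩
      have h := congrFun (LinearMap.mem_ker.1 hA) ⟨e, he⟩
      have h' : A (l e) + A (r e) = 0 := h
      exact CharTwo.add_eq_zero.1 h'
    · funext f
      rfl
  have h2 := LinearMap.finrank_range_add_finrank_ker D
  have h3 : Module.finrank (ZMod 2) (LinearMap.range D) ≤ P.card := by
    refine (Submodule.finrank_le _).trans ?_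
    simp
  have h4 : Module.finrank (ZMod 2) (LinearMap.ker D) ≤ Nat.card (Quot (Mrg l r P)) := by
    refine (Submodule.finrank_mono h1).trans ((LinearMap.finrank_range_le L).trans ?_)
    simp
  rw [Module.finrank_fintype_fun_eq_card] at h2
  omega

end classes

/-- an abstract planar map -/
structure PMap (V E Φ : Type*) [Fintype V] [Fintype E] [Fintype Φ] [DecidableEq V] where
  a : E → V
  b : E → V
  l : E → Φ
  r : E → Φ
  euler : Fintype.card V + Fintype.card Φ = Fintype.card E + 2
  even : ∀ (A : Φ → ZMod 2) (v : V), (∑ e, if a e = v then A (l e) + A (r e) else 0) +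
    (∑ e, if b e = v then A (l e) + A (r e) else 0) = 0
  dual : ∀ A : Φ → ZMod 2, (∀ e, A (l e) = A (r e)) → ∀ f g, A f = A g

/-- a partition of the vertices into rooted trees of edges of the map, indexed by `W`, and a graph
`H` on `W` realised by edges between the parts -/
structure Mdl {V E Φ : Type*} [Fintype V] [Fintype E] [Fintype Φ] [DecidableEq V]
    (M : PMap V E Φ) {W : Type*} (H : SimpleGraph W) where
  π : V → W
  root : W → V
  π_root : ∀ w, π (root w) = w
  par : V → V
  pe : V → E
  rk : V → ℕ
  pe_ends : ∀ v, v ≠ root (π v) → s(M.a (pe v), M.b (pe v)) = s(v, par v)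
  π_par : ∀ v, v ≠ root (π v) → π (par v) = π v
  rk_par : ∀ v, v ≠ root (π v) → rk (par v) < rk v
  rep : H.edgeSet → E
  rep_ends : ∀ h, s(π (M.a (rep h)), π (M.b (rep h))) = h.1

section main

variable {V E Φ : Type*} [Fintype V] [Fintype E] [Fintype Φ] [DecidableEq V]
  {M : PMap V E Φ} {W : Type*} [Fintype W] {H : SimpleGraph W} (N : Mdl M H)

include N

/-- the vertices which are not roots -/
def Mdl.NR : Type _ := {v : V // v ≠ N.root (N.π v)}

theorem card_NR : Nat.card N.NR + Fintype.card W = Fintype.card V := by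
  classical
  have h1 : Nat.card N.NR = Fintype.card {v : V // v ≠ N.root (N.π v)} := by
    rw [Nat.card_eq_fintype_card.symm]
    rfl
  have h2 : Fintype.card {v : V // v = N.root (N.π v)} = Fintype.card W := by
    refine Fintype.card_congr
      { toFun := fun v => N.π v.1
        invFun := fun w => ⟨N.root w, by rw [N.π_root]⟩
        left_inv := ?_
        right_inv := ?_ }
    · rintro ⟨v, hv⟩
      exact Subtype.ext hv.symm
    · intro w
      exact N.π_root w
  have h3 := Fintype.card_subtype_compl (fun v : V => v = N.root (N.π v))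
  have h4 : Fintype.card {v : V // v = N.root (N.π v)} ≤ Fintype.card V :=
    Fintype.card_subtype_le _
  have h5 : Fintype.card {v : V // v ≠ N.root (N.π v)} =
      Fintype.card {v : V // ¬ v = N.root (N.π v)} := rfl
  omega

theorem pe_inj {u v : V} (hu : u ≠ N.root (N.π u)) (hv : v ≠ N.root (N.π v))
    (h : N.pe u = N.pe v) : u = v := by
  have h1 := N.pe_ends u hu
  have h2 := N.pe_ends v hv
  rw [h, h2] at h1
  rcases Sym2.eq_iff.1 h1 with ⟨h3, -⟩ | ⟨h3, h4⟩
  · exact h3.symm
  · have h5 := N.rk_par u hu
    have h6 := N.rk_par v hv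
    rw [← h3] at h5
    rw [h4] at h6
    omega

theorem rep_inj : Function.Injective N.rep := by
  intro h h' e
  apply Subtype.ext
  rw [← N.rep_ends h, ← N.rep_ends h', e]

theorem pi_pe {v : V} (hv : v ≠ N.root (N.π v)) :
    N.π (M.a (N.pe v)) = N.π v ∧ N.π (M.b (N.pe v)) = N.π v := by
  have h1 := N.pe_ends v hv
  have h2 := N.π_par v hv
  rcases Sym2.eq_iff.1 h1 with ⟨h3, h4⟩ | ⟨h3, h4⟩
  · rw [h3, h4]
    exact ⟨rfl, h2⟩
  · rw [h3, h4]
    exact ⟨h2, rfl⟩

theorem pi_rep (h : H.edgeSet) : N.π (M.a (N.rep h)) ≠ N.π (M.b (N.rep h)) := by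
  have h1 := h.2
  rw [← N.rep_ends h] at h1
  exact (H.mem_edgeSet.1 h1).ne

/-- a set of faces whose boundary lies in the forest has empty boundary -/
theorem bd_zero (A : Φ → ZMod 2)
    (hA : ∀ e, (∀ v, v ≠ N.root (N.π v) → N.pe v ≠ e) → A (M.l e) + A (M.r e) = 0) :
    ∀ e, A (M.l e) + A (M.r e) = 0 := by
  classical
  by_contra hcon
  push Not at hcon
  obtain ⟨e0, he0⟩ := hcon
  let S : Finset V := Finset.univ.filter (fun v => v ≠ N.root (N.π v) ∧
    A (M.l (N.pe v)) + A (M.r (N.pe v)) ≠ 0)
  have hS : S.Nonempty := by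
    by_contra hS
    rw [Finset.not_nonempty_iff_eq_empty] at hS
    apply he0
    apply hA
    intro v hv hve
    have : v ∈ S := by
      simp only [S, Finset.mem_filter, Finset.mem_univ, true_and]
      exact ⟨hv, by rwa [hve]⟩
    rw [hS] at this
    simp at this
  obtain ⟨v, hvS, hmax⟩ := Finset.exists_max_image S N.rk hS
  simp only [S, Finset.mem_filter, Finset.mem_univ, true_and] at hvS hmax
  obtain ⟨hv, hvA⟩ := hvS
  have hev := M.even A v
  have hne : v ≠ N.par v := by
    intro h
    have := N.rk_par v hv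
    rw [← h] at this
    omega
  -- all other edges at v have zero boundary
  have hother : ∀ e, e ≠ N.pe v → (M.a e = v ∨ M.b e = v) → A (M.l e) + A (M.r e) = 0 := by
    intro e hev' hinc
    by_contra h0
    have h1 : ∃ u, u ≠ N.root (N.π u) ∧ N.pe u = e := by
      by_contra h2
      push Not at h2
      exact h0 (hA e h2)
    obtain ⟨u, hu, rfl⟩ := h1
    have huv : u ≠ v := by rintro rfl; exact hev' rfl
    have h2 := N.pe_ends u hu
    have h3 : v = N.par u := by
      have h4 : v ∈ s(M.a (N.pe u), M.b (N.pe u)) := by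
        rcases hinc with h | h
        · rw [← h]; exact Sym2.mem_mk_left _ _
        · rw [← h]; exact Sym2.mem_mk_right _ _
      rw [h2, Sym2.mem_iff] at h4
      rcases h4 with h4 | h4
      · exact absurd h4.symm huv
      · exact h4
    have h5 := hmax u ⟨hu, h0⟩
    have h6 := N.rk_par u hu
    rw [← h3] at h6
    omega
  have hs1 : ∀ (c : E → V), (∀ e, c e = v → (M.a e = v ∨ M.b e = v)) →
      (∑ e, if c e = v then A (M.l e) + A (M.r e) else 0) =
      if c (N.pe v) = v then A (M.l (N.pe v)) + A (M.r (N.pe v)) else 0 := by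
    intro c hc
    refine Finset.sum_eq_single (N.pe v) ?_ ?_
    · intro e _ he
      by_cases h : c e = v
      · rw [if_pos h]
        exact hother e he (hc e h)
      · rw [if_neg h]
    · intro h
      exact absurd (Finset.mem_univ _) h
  rw [hs1 M.a (fun e h => Or.inl h), hs1 M.b (fun e h => Or.inr h)] at hev
  have h1 := N.pe_ends v hv
  rcases Sym2.eq_iff.1 h1 with ⟨h3, h4⟩ | ⟨h3, h4⟩
  · rw [if_pos h3, if_neg (by rw [h4]; exact hne.symm), add_zero] at hev
    exact hvA hev
  · rw [if_neg (by rw [h3]; exact hne.symm), if_pos h4, zero_add] at hev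
    exact hvA hev

end main

end Pool.Agent.H27.PM
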