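import Pool.Agent.H27.PM.Abs

/-!
# The edge bound for triangle-free minors of an abstract planar map: counting
-/

set_option autoImplicit false

namespace Pool.Agent.H27.PM

open SimpleGraph

section main

variable {V E Φ : Type*} [Fintype V] [Fintype E] [Fintype Φ] [DecidableEq V]
  {M : PMap V E Φ} {W : Type*} [Fintype W] {H : SimpleGraph W} (N : Mdl M H)

include N

/-- the trace of a set of faces whose boundary avoids all edges outside the forest and the
representatives is an even edge set of `H` -/
theorem trace_even (A : Φ → ZMod 2)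
    (hA : ∀ e, (∀ v, v ≠ N.root (N.π v) → N.pe v ≠ e) → (∀ h, N.rep h ≠ e) →
      A (M.l e) + A (M.r e) = 0) (w : W) :
    Even (Nat.card {h : H.edgeSet // w ∈ h.1 ∧ A (M.l (N.rep h)) + A (M.r (N.rep h)) ≠ 0}) := by
  classical
  have h1 : ∑ v ∈ Finset.univ.filter (fun v => N.π v = w),
      ((∑ e, if M.a e = v then A (M.l e) + A (M.r e) else 0) +
      (∑ e, if M.b e = v then A (M.l e) + A (M.r e) else 0)) = 0 :=
    Finset.sum_eq_zero fun v _ => M.even A v
  have h2 : ∀ c : E → V, ∑ v ∈ Finset.univ.filter (fun v => N.π v = w),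
      (∑ e, if c e = v then A (M.l e) + A (M.r e) else 0) =
      ∑ e, if N.π (c e) = w then A (M.l e) + A (M.r e) else 0 := by
    intro c
    rw [Finset.sum_comm]
    refine Finset.sum_congr rfl fun e _ => ?_
    rw [Finset.sum_ite_eq]
    simp
  rw [Finset.sum_add_distrib, h2, h2, ← Finset.sum_add_distrib] at h1
  have h3 : ∀ e ∈ (Finset.univ : Finset E), e ∉ Finset.univ.image N.rep →
      (if N.π (M.a e) = w then A (M.l e) + A (M.r e) else 0) +
      (if N.π (M.b e) = w then A (M.l e) + A (M.r e) else 0) = 0 := by
    intro e _ he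
    have he' : ∀ h, N.rep h ≠ e := by
      intro h hh
      apply he
      rw [Finset.mem_image]
      exact ⟨h, Finset.mem_univ _, hh⟩
    by_cases h4 : ∃ v, v ≠ N.root (N.π v) ∧ N.pe v = e
    · obtain ⟨v, hv, rfl⟩ := h4
      obtain ⟨h5, h6⟩ := pi_pe N hv
      rw [h5, h6]
      exact CharTwo.add_self_eq_zero _
    · push Not at h4
      rw [hA e h4 he']
      simp
  rw [← Finset.sum_subset (Finset.subset_univ (Finset.univ.image N.rep)) h3,
    Finset.sum_image (fun x _ y _ h => rep_inj N h)] at h1
  have h4 : ∀ h : H.edgeSet,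
      (if N.π (M.a (N.rep h)) = w then A (M.l (N.rep h)) + A (M.r (N.rep h)) else 0) +
      (if N.π (M.b (N.rep h)) = w then A (M.l (N.rep h)) + A (M.r (N.rep h)) else 0) =
      if (w ∈ h.1 ∧ A (M.l (N.rep h)) + A (M.r (N.rep h)) ≠ 0) then 1 else 0 := by
    intro h
    have h5 := N.rep_ends h
    have h6 := pi_rep N h
    have h7 : ∀ x : ZMod 2, x = if x ≠ 0 then 1 else 0 := by decide
    have h8 : w ∈ h.1 ↔ N.π (M.a (N.rep h)) = w ∨ N.π (M.b (N.rep h)) = w := by
      rw [← h5, Sym2.mem_iff]
      constructor
      · rintro (h | h)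
        · exact Or.inl h.symm
        · exact Or.inr h.symm
      · rintro (h | h)
        · exact Or.inl h.symm
        · exact Or.inr h.symm
    by_cases ha : N.π (M.a (N.rep h)) = w
    · have hb : N.π (M.b (N.rep h)) ≠ w := fun hb => h6 (ha.trans hb.symm)
      rw [if_pos ha, if_neg hb, add_zero]
      have : w ∈ h.1 := h8.2 (Or.inl ha)
      simp only [this, true_and]
      exact h7 _
    · by_cases hb : N.π (M.b (N.rep h)) = w
      · rw [if_neg ha, if_pos hb, zero_add]
        have : w ∈ h.1 := h8.2 (Or.inr hb)
        simp only [this, true_and]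
        exact h7 _
      · rw [if_neg ha, if_neg hb, zero_add, if_neg]
        rintro ⟨h9, -⟩
        rcases h8.1 h9 with h9 | h9
        · exact ha h9
        · exact hb h9
  rw [Finset.sum_congr rfl (fun h _ => h4 h), Finset.sum_boole, ZMod.natCast_eq_zero_iff_even] at h1
  rw [Nat.card_eq_fintype_card, Fintype.card_subtype]
  exact h1

theorem bound (hH : H.CliqueFree 3) (hW : 3 ≤ Fintype.card W) :
    Nat.card H.edgeSet + 4 ≤ 2 * Fintype.card W := by
  classical
  let FF : Finset E := (Finset.univ.filter (fun v => v ≠ N.root (N.π v))).image N.pe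
  let EE : Finset E := Finset.univ.image N.rep
  have hFF : FF.card + Fintype.card W = Fintype.card V := by
    rw [← card_NR N, Finset.card_image_of_injOn]
    · rw [← Fintype.card_subtype, ← Nat.card_eq_fintype_card]
      rfl
    · intro u hu v hv h
      simp only [Finset.coe_filter, Finset.mem_univ, true_and, Set.mem_setOf_eq] at hu hv
      exact pe_inj N hu hv h
  have hEE : EE.card = Nat.card H.edgeSet := by
    rw [Finset.card_image_of_injective _ (rep_inj N), Finset.card_univ, Nat.card_eq_fintype_card]
  have hdisj : Disjoint FF EE := by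
    rw [Finset.disjoint_left]
    intro e h1 h2
    simp only [FF, EE, Finset.mem_image, Finset.mem_filter, Finset.mem_univ, true_and] at h1 h2
    obtain ⟨v, hv, rfl⟩ := h1
    obtain ⟨h, hh⟩ := h2
    obtain ⟨h5, h6⟩ := pi_pe N hv
    apply pi_rep N h
    rw [hh, h5, h6]
  let P : Finset E := Finset.univ \ (FF ∪ EE)
  have hP : P.card + FF.card + EE.card = Fintype.card E := by
    have := Finset.card_sdiff_add_card_eq_card (Finset.subset_univ (FF ∪ EE))
    rw [Finset.card_union_of_disjoint hdisj, Finset.card_univ] at this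
    change P.card + _ = _ at this
    omega
  have hmemP : ∀ e, e ∈ P ↔ (∀ v, v ≠ N.root (N.π v) → N.pe v ≠ e) ∧ ∀ h, N.rep h ≠ e := by
    intro e
    simp only [P, FF, EE, Finset.mem_sdiff, Finset.mem_univ, true_and, Finset.mem_union,
      Finset.mem_image, Finset.mem_filter, not_or, not_exists, not_and]
  have hq := card_quot M.l M.r P
  have hfin : Fintype (Quot (Mrg M.l M.r P)) := Fintype.ofFinite _
  set Q := Quot (Mrg M.l M.r P) with hQ
  let A : Q → Φ → ZMod 2 := fun κ f => if (Quot.mk _ f : Q) = κ then 1 else 0
  have hAP : ∀ κ, ∀ e ∈ P, A κ (M.l e) + A κ (M.r e) = 0 := by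
    intro κ e he
    have : (Quot.mk _ (M.l e) : Q) = Quot.mk _ (M.r e) := Quot.sound ⟨e, he, rfl, rfl⟩
    simp only [A, this]
    exact CharTwo.add_self_eq_zero _
  let B : Q → Finset H.edgeSet := fun κ =>
    Finset.univ.filter (fun h => A κ (M.l (N.rep h)) + A κ (M.r (N.rep h)) ≠ 0)
  have heul := M.euler
  by_cases hK : Nat.card Q ≤ 1
  · omega
  · push Not at hK
    have h4 : ∀ κ, 4 ≤ (B κ).card := by
      intro κ
      have hC : ((B κ).image Subtype.val).card = (B κ).card :=
        Finset.card_image_of_injective _ Subtype.val_injective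
      rw [← hC]
      refine four_le_card hH ?_ ?_ ?_
      · intro h hh
        rw [Finset.mem_image] at hh
        obtain ⟨h', -, rfl⟩ := hh
        exact h'.2
      · rw [Finset.image_nonempty]
        by_contra hemp
        rw [Finset.not_nonempty_iff_eq_empty] at hemp
        have h5 : ∀ e, A κ (M.l e) + A κ (M.r e) = 0 := by
          apply bd_zero N
          intro e he
          by_cases h6 : ∃ h, N.rep h = e
          · obtain ⟨h, rfl⟩ := h6
            by_contra h7
            have : h ∈ B κ := by
              simp only [B, Finset.mem_filter, Finset.mem_univ, true_and]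
              exact h7
            rw [hemp] at this
            simp at this
          · push Not at h6
            exact hAP κ e ((hmemP e).2 ⟨he, h6⟩)
        have h6 := M.dual (A κ) (fun e => CharTwo.add_eq_zero.1 (h5 e))
        obtain ⟨f, hf⟩ := Quot.exists_rep κ
        have h7 : ∃ κ' : Q, κ' ≠ κ := by
          rw [Nat.card_eq_fintype_card] at hK
          exact Fintype.exists_ne_of_one_lt_card hK κ
        obtain ⟨κ', hκ'⟩ := h7
        obtain ⟨g, hg⟩ := Quot.exists_rep κ'
        have h8 := h6 f g
        simp only [A, hf, hg, if_true, if_neg hκ'] at h8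
        exact one_ne_zero h8
      · intro w
        have h5 := trace_even N (A κ) (fun e he1 he2 => hAP κ e ((hmemP e).2 ⟨he1, he2⟩)) w
        rw [Nat.card_eq_fintype_card, Fintype.card_subtype] at h5
        have h6 : ((B κ).image Subtype.val).filter (fun h => w ∈ h) =
            (Finset.univ.filter (fun h : H.edgeSet => w ∈ h.1 ∧
              A κ (M.l (N.rep h)) + A κ (M.r (N.rep h)) ≠ 0)).image Subtype.val := by
          ext h
          simp only [Finset.mem_filter, Finset.mem_image, Finset.mem_univ, true_and, B]
          constructor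
          · rintro ⟨⟨h', h1, rfl⟩, h2⟩
            exact ⟨h', ⟨h2, h1⟩, rfl⟩
          · rintro ⟨h', ⟨h1, h2⟩, rfl⟩
            exact ⟨⟨h', h2, rfl⟩, h1⟩
        rw [h6, Finset.card_image_of_injective _ Subtype.val_injective]
        exact h5
    have h5 : ∑ κ, (B κ).card ≤ 2 * Nat.card H.edgeSet := by
      have h6 : ∑ κ, (B κ).card = ∑ h : H.edgeSet, (Finset.univ.filter (fun κ : Q =>
          A κ (M.l (N.rep h)) + A κ (M.r (N.rep h)) ≠ 0)).card := by
        simp only [B, Finset.card_filter]
        rw [Finset.sum_comm]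
      rw [h6, Nat.card_eq_fintype_card, ← Finset.card_univ, mul_comm, ← smul_eq_mul,
        ← Finset.sum_const]
      refine Finset.sum_le_sum fun h _ => ?_
      refine (Finset.card_le_card (t := {(Quot.mk _ (M.l (N.rep h)) : Q),
        (Quot.mk _ (M.r (N.rep h)) : Q)}) ?_).trans Finset.card_le_two
      intro κ hκ
      simp only [Finset.mem_filter, Finset.mem_univ, true_and, A] at hκ
      simp only [Finset.mem_insert, Finset.mem_singleton]
      by_contra hcon
      push Not at hcon
      rw [if_neg (fun h => hcon.1 h.symm), if_neg (fun h => hcon.2 h.symm)] at hκ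
      exact hκ (add_zero 0)
    have h6 : 4 * Nat.card Q ≤ ∑ κ, (B κ).card := by
      rw [Nat.card_eq_fintype_card, ← Finset.card_univ, mul_comm, ← smul_eq_mul,
        ← Finset.sum_const]
      exact Finset.sum_le_sum fun κ _ => h4 κ
    omega

end main

end Pool.Agent.H27.PM
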