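import Pool.Agent.H27.PM.Model

/-!
# The class of minors of a triangulated sphere, on a fixed vertex type

* `edgesIn H S`: the edges of `H` inside `S`;
* `contract H a b`: contract the edge `ab` to `b`; the vertex `a` stays as an isolated vertex;
* `PMinor T H`: `H` is a minor of the sphere `T` (branch sets may be empty at isolated vertices).
-/

set_option autoImplicit false

namespace Pool.Agent.H27.PM

open Relation Pool.Agent.H13.DA

variable {W : Type*}

open Classical in
/-- the edges inside `S` -/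
noncomputable def edgesIn [Fintype W] (H : SimpleGraph W) (S : Finset W) : Finset (Sym2 W) :=
  Finset.univ.filter (fun e => e ∈ H.edgeSet ∧ ∀ v ∈ e, v ∈ S)

/-- contract `a` into `b`; `a` becomes isolated -/
def contract (H : SimpleGraph W) (a b : W) : SimpleGraph W where
  Adj x y := x ≠ y ∧ x ≠ a ∧ y ≠ a ∧ (H.Adj x y ∨ (x = b ∧ H.Adj a y) ∨ (y = b ∧ H.Adj a x))
  symm := ⟨by
    rintro x y ⟨h1, h2, h3, h4⟩
    refine ⟨h1.symm, h3, h2, ?_⟩
    rcases h4 with h4 | h4 | h4
    · exact Or.inl h4.symm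
    · exact Or.inr (Or.inr h4)
    · exact Or.inr (Or.inl h4)⟩
  loopless := ⟨fun x h => h.1 rfl⟩

variable {U : Type*} {T : Finset (U × U × U)}

/-- `H` is a minor of `T` -/
def PMinor (T : Finset (U × U × U)) (H : SimpleGraph W) : Prop :=
  ∃ B : W → Set U, (∀ w, ∀ u ∈ B w, u ∈ verts T) ∧
    (∀ w w' u, u ∈ B w → u ∈ B w' → w = w') ∧
    (∀ w, ∀ x ∈ B w, ∀ y ∈ B w, ReflTransGen (fun x y => Adj T x y ∧ y ∈ B w) x y) ∧
    (∀ a b, H.Adj a b → ∃ u ∈ B a, ∃ v ∈ B b, Adj T u v)

theorem PMinor.mono {H H' : SimpleGraph W} (h : H' ≤ H) (hH : PMinor T H) : PMinor T H' := by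
  obtain ⟨B, h1, h2, h3, h4⟩ := hH
  exact ⟨B, h1, h2, h3, fun a b hab => h4 a b (h hab)⟩

theorem PMinor.contract {H : SimpleGraph W} (hH : PMinor T H) {a b : W} (hab : H.Adj a b) :
    PMinor T (contract H a b) := by
  classical
  obtain ⟨B, h1, h2, h3, h4⟩ := hH
  obtain ⟨u0, hu0, v0, hv0, huv⟩ := h4 a b hab
  have hne : a ≠ b := hab.ne
  let B' : W → Set U := fun w => if w = a then ∅ else if w = b then B a ∪ B b else B w
  have ha : B' a = ∅ := by simp [B']
  have hb : B' b = B a ∪ B b := by simp [B', hne.symm]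
  have ho : ∀ w, w ≠ a → w ≠ b → B' w = B w := by
    intro w h h'
    simp [B', h, h']
  have hsub : ∀ w, w ≠ a → B w ⊆ B' w := by
    intro w h
    by_cases h' : w = b
    · subst h'
      rw [hb]
      exact Set.subset_union_right
    · rw [ho w h h']
  refine ⟨B', ?_, ?_, ?_, ?_⟩
  · intro w u hu
    by_cases h : w = a
    · rw [h, ha] at hu
      exact absurd hu (Set.notMem_empty u)
    · by_cases h' : w = b
      · rw [h', hb] at hu
        rcases hu with hu | hu
        · exact h1 _ _ hu
        · exact h1 _ _ hu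
      · rw [ho w h h'] at hu
        exact h1 _ _ hu
  · -- disjointness
    have key : ∀ w u, u ∈ B' w → ∃ w', u ∈ B w' ∧ w ≠ a ∧ ((w' = w ∧ w ≠ b) ∨ (w = b ∧ (w' = a ∨ w' = b))) := by
      intro w u hu
      by_cases h : w = a
      · rw [h, ha] at hu
        exact absurd hu (Set.notMem_empty u)
      · by_cases h' : w = b
        · rw [h', hb] at hu
          rcases hu with hu | hu
          · exact ⟨a, hu, h, Or.inr ⟨h', Or.inl rfl⟩⟩
          · exact ⟨b, hu, h, Or.inr ⟨h', Or.inr rfl⟩⟩
        · rw [ho w h h'] at hu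
          exact ⟨w, hu, h, Or.inl ⟨rfl, h'⟩⟩
    intro w w' u hu hu'
    obtain ⟨x, hx, hwa, hx'⟩ := key w u hu
    obtain ⟨y, hy, hwa', hy'⟩ := key w' u hu'
    have hxy := h2 _ _ _ hx hy
    rcases hx' with ⟨rfl, h5⟩ | ⟨rfl, h5⟩
    · rcases hy' with ⟨rfl, h6⟩ | ⟨rfl, h6⟩
      · exact hxy
      · rcases h6 with rfl | rfl
        · exact absurd hxy hwa
        · exact absurd hxy h5
    · rcases hy' with ⟨rfl, h6⟩ | ⟨rfl, h6⟩
      · rcases h5 with rfl | rfl
        · exact absurd hxy.symm hwa'
        · exact absurd hxy.symm h6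
      · rfl
  · -- connectedness
    intro w x hx y hy
    by_cases h : w = a
    · rw [h, ha] at hx
      exact absurd hx (Set.notMem_empty x)
    · by_cases h' : w = b
      · subst h'
        have hup : ∀ c, (c = a ∨ c = w) → ∀ p ∈ B c, ∀ q ∈ B c,
            ReflTransGen (fun x y => Adj T x y ∧ y ∈ B' w) p q := by
          intro c hc p hp q hq
          refine Relation.ReflTransGen.mono (r := fun x y => Adj T x y ∧ y ∈ B c) ?_
            _ _ (h3 c p hp q hq)
          intro s t hst
          refine ⟨hst.1, ?_⟩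
          rw [hb]
          rcases hc with rfl | rfl
          · exact Or.inl hst.2
          · exact Or.inr hst.2
        have hu0' : u0 ∈ B' w := by rw [hb]; exact Or.inl hu0
        have hv0' : v0 ∈ B' w := by rw [hb]; exact Or.inr hv0
        rw [hb] at hx hy
        rcases hx with hx | hx
        · rcases hy with hy | hy
          · exact hup a (Or.inl rfl) x hx y hy
          · exact ((hup a (Or.inl rfl) x hx u0 hu0).tail ⟨huv, hv0'⟩).trans
              (hup w (Or.inr rfl) v0 hv0 y hy)
        · rcases hy with hy | hy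
          · exact ((hup w (Or.inr rfl) x hx v0 hv0).tail ⟨adj_symm' huv, hu0'⟩).trans
              (hup a (Or.inl rfl) u0 hu0 y hy)
          · exact hup w (Or.inr rfl) x hx y hy
      · rw [ho w h h'] at hx hy ⊢
        exact h3 w x hx y hy
  · intro x y hxy
    obtain ⟨hne', hxa, hya, h5⟩ := hxy
    rcases h5 with h5 | ⟨rfl, h5⟩ | ⟨rfl, h5⟩
    · obtain ⟨u, hu, v, hv, h6⟩ := h4 x y h5
      exact ⟨u, hsub x hxa hu, v, hsub y hya hv, h6⟩
    · obtain ⟨u, hu, v, hv, h6⟩ := h4 a y h5
      refine ⟨u, ?_, v, hsub y hya hv, h6⟩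
      rw [hb]
      exact Or.inl hu
    · obtain ⟨u, hu, v, hv, h6⟩ := h4 a x h5
      refine ⟨v, hsub x hxa hv, u, ?_, adj_symm' h6⟩
      rw [hb]
      exact Or.inl hu

/-- the edge bound inside a set of vertices without triangle and without isolated vertex -/
theorem PMinor.bound [Fintype W] (hT : IsCx T) (hc : Conn T) (hcl : Clos T) (h6 : chi T = 6)
    {H : SimpleGraph W} (hH : PMinor T H) {S : Finset W} (hS : 3 ≤ S.card)
    (hiso : ∀ w ∈ S, ∃ w', H.Adj w w')
    (htri : ∀ x ∈ S, ∀ y ∈ S, ∀ z ∈ S, H.Adj x y → H.Adj y z → ¬ H.Adj x z) :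
    (edgesIn H S).card + 4 ≤ 2 * S.card := by
  classical
  obtain ⟨B, h1, h2, h3, h4⟩ := hH
  let H' : SimpleGraph {w // w ∈ S} := H.comap (fun w => w.1)
  have hcard : Fintype.card {w // w ∈ S} = S.card := Fintype.card_coe S
  have hb := minor_bound hT hc hcl h6 H' (fun w => B w.1)
    (by
      intro w
      obtain ⟨w', hw'⟩ := hiso w.1 w.2
      obtain ⟨u, hu, -⟩ := h4 _ _ hw'
      exact ⟨u, hu⟩)
    (fun w => h1 w.1) (fun w w' u hu hu' => Subtype.ext (h2 _ _ _ hu hu')) (fun w => h3 w.1)
    (fun a b hab => h4 _ _ hab)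
    (by
      intro s hs
      rw [SimpleGraph.is3Clique_iff] at hs
      obtain ⟨x, y, z, hxy, hxz, hyz, -⟩ := hs
      exact htri x.1 x.2 y.1 y.2 z.1 z.2 hxy hyz hxz)
    (by rw [hcard]; exact hS)
  rw [hcard] at hb
  have he : (edgesIn H S).card = Nat.card H'.edgeSet := by
    rw [Nat.card_eq_fintype_card, ← Set.toFinset_card]
    symm
    refine Finset.card_bij (fun e _ => e.map (fun w => w.1)) ?_ ?_ ?_
    · intro e he
      rw [Set.mem_toFinset] at he
      induction e using Sym2.ind with
      | _ x y =>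
        simp only [edgesIn, Finset.mem_filter, Finset.mem_univ, true_and, Sym2.map_mk]
        refine ⟨he, ?_⟩
        intro v hv
        rcases Sym2.mem_iff.1 hv with rfl | rfl
        · exact x.2
        · exact y.2
    · intro e _ e' _ h
      exact Sym2.map.injective Subtype.val_injective h
    · intro e he
      simp only [edgesIn, Finset.mem_filter, Finset.mem_univ, true_and] at he
      induction e using Sym2.ind with
      | _ x y =>
        have hx := he.2 x (Sym2.mem_mk_left _ _)
        have hy := he.2 y (Sym2.mem_mk_right _ _)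
        refine ⟨s(⟨x, hx⟩, ⟨y, hy⟩), ?_, rfl⟩
        rw [Set.mem_toFinset]
        exact he.1
  omega

end Pool.Agent.H27.PM
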