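import Pool.Agent.H27.PM.Glue

/-!
# Contraction of a good edge: sparsity and lifting of the switching
-/

set_option autoImplicit false

namespace Pool.Agent.H27.PM

open Relation

variable {W : Type*} [Fintype W]

/-- every set of at least two vertices spans at most `2|S| - 3` edges -/
def Sparse (H : SimpleGraph W) : Prop :=
  ∀ S : Finset W, 2 ≤ S.card → (edgesIn H S).card + 3 ≤ 2 * S.card

/-- equality for a set of at least three vertices -/
def Tight (H : SimpleGraph W) (S : Finset W) : Prop :=
  3 ≤ S.card ∧ (edgesIn H S).card + 3 = 2 * S.card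

/-- an edge which can be contracted -/
def GoodEdge (H : SimpleGraph W) (a b : W) : Prop :=
  H.Adj a b ∧ ((∀ S, Tight H S → a ∈ S → b ∈ S → False) ∨
    ∃ w, H.Adj a w ∧ H.Adj b w ∧ ∀ S, Tight H S → a ∈ S → b ∈ S → w ∈ S)

/-- the switching `X` makes the orientation `o` of `H` acyclic -/
def Acy (H : SimpleGraph W) (o : W → W → ZMod 2) (X : W → ZMod 2) : Prop :=
  ∀ u, ¬ TransGen (fun x y => H.Adj x y ∧ o x y + X x + X y = 1) u u

theorem mem_edgesIn {H : SimpleGraph W} {S : Finset W} {x y : W} :
    s(x, y) ∈ edgesIn H S ↔ H.Adj x y ∧ x ∈ S ∧ y ∈ S := by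
  classical
  simp only [edgesIn, Finset.mem_filter, Finset.mem_univ, true_and, Sym2.mem_iff]
  constructor
  · rintro ⟨h1, h2⟩
    exact ⟨h1, h2 x (Or.inl rfl), h2 y (Or.inr rfl)⟩
  · rintro ⟨h1, h2, h3⟩
    refine ⟨h1, ?_⟩
    rintro v (rfl | rfl)
    · exact h2
    · exact h3

/-- the edges of the contraction come from edges other than `ab` (and other than `aw`, `w` a common
neighbour) -/
theorem contract_sub [DecidableEq W] {H : SimpleGraph W} {a b : W} (S : Finset W) (hb : b ∈ S)
    (C : Finset (Sym2 W)) (hC : ∀ e ∈ C, e = s(a, b) ∨ ∃ w, e = s(a, w) ∧ H.Adj b w) :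
    edgesIn (contract H a b) S ⊆
      ((edgesIn H (insert a S)) \ C).image (Sym2.map (fun x => if x = a then b else x)) := by
  intro e he
  induction e using Sym2.ind with
  | _ x y =>
  rw [mem_edgesIn] at he
  obtain ⟨⟨hxy, hxa, hya, h⟩, hx, hy⟩ := he
  rw [Finset.mem_image]
  by_cases hadj : H.Adj x y
  · refine ⟨s(x, y), ?_, ?_⟩
    · rw [Finset.mem_sdiff, mem_edgesIn]
      refine ⟨⟨hadj, Finset.mem_insert_of_mem hx, Finset.mem_insert_of_mem hy⟩, ?_⟩
      intro hc
      have hno : ∀ z, s(x, y) ≠ s(a, z) := by
        intro z h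
        rcases Sym2.eq_iff.1 h with ⟨h1, -⟩ | ⟨-, h1⟩
        · exact hxa h1
        · exact hya h1
      rcases hC _ hc with h1 | ⟨w, h1, -⟩
      · exact hno _ h1
      · exact hno _ h1
    · simp only [Sym2.map_mk, if_neg hxa, if_neg hya]
  · rcases h with h | ⟨rfl, h⟩ | ⟨rfl, h⟩
    · exact absurd h hadj
    · refine ⟨s(a, y), ?_, ?_⟩
      · rw [Finset.mem_sdiff, mem_edgesIn]
        refine ⟨⟨h, Finset.mem_insert_self _ _, Finset.mem_insert_of_mem hy⟩, ?_⟩
        intro hc
        rcases hC _ hc with h1 | ⟨w, h1, h2⟩
        · rcases Sym2.eq_iff.1 h1 with ⟨-, h1⟩ | ⟨-, h1⟩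
          · exact hxy h1.symm
          · exact hya h1
        · rcases Sym2.eq_iff.1 h1 with ⟨-, h1⟩ | ⟨-, h1⟩
          · exact hadj (by rw [h1]; exact h2)
          · exact hya h1
      · simp only [Sym2.map_mk, if_true, if_neg hya]
    · refine ⟨s(a, x), ?_, ?_⟩
      · rw [Finset.mem_sdiff, mem_edgesIn]
        refine ⟨⟨h, Finset.mem_insert_self _ _, Finset.mem_insert_of_mem hx⟩, ?_⟩
        intro hc
        rcases hC _ hc with h1 | ⟨w, h1, h2⟩
        · rcases Sym2.eq_iff.1 h1 with ⟨-, h1⟩ | ⟨-, h1⟩
          · exact hxy h1
          · exact hxa h1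
        · rcases Sym2.eq_iff.1 h1 with ⟨-, h1⟩ | ⟨-, h1⟩
          · exact hadj (by rw [h1]; exact h2.symm)
          · exact hxa h1
      · simp only [Sym2.map_mk, if_true, if_neg hxa]
        exact Sym2.eq_swap

theorem contract_card [DecidableEq W] {H : SimpleGraph W} {a b : W} (S : Finset W) (hb : b ∈ S)
    (C : Finset (Sym2 W)) (hC : ∀ e ∈ C, e = s(a, b) ∨ ∃ w, e = s(a, w) ∧ H.Adj b w)
    (hC' : C ⊆ edgesIn H (insert a S)) :
    (edgesIn (contract H a b) S).card + C.card ≤ (edgesIn H (insert a S)).card := by
  have h1 := (Finset.card_le_card (contract_sub (H := H) (a := a) S hb C hC)).trans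
    Finset.card_image_le
  have h2 := Finset.card_sdiff_add_card_eq_card hC'
  omega

theorem contract_edges_lt {H : SimpleGraph W} {a b : W} (hab : H.Adj a b) :
    (edgesIn (contract H a b) Finset.univ).card < (edgesIn H Finset.univ).card := by
  classical
  have h := contract_card (H := H) (a := a) (b := b) Finset.univ (Finset.mem_univ b) {s(a, b)}
    (by
      intro e he
      rw [Finset.mem_singleton] at he
      exact Or.inl he)
    (by
      rw [Finset.singleton_subset_iff, mem_edgesIn]
      exact ⟨hab, by simp, by simp⟩)
  rw [Finset.card_singleton] at h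
  have h2 : insert a (Finset.univ : Finset W) = Finset.univ := by simp
  rw [h2] at h
  omega

theorem contract_sparse {H : SimpleGraph W} (hs : Sparse H) {a b : W} (hg : GoodEdge H a b) :
    Sparse (contract H a b) := by
  classical
  intro S hS
  obtain ⟨hab, hg⟩ := hg
  by_cases hb : b ∈ S
  · -- remove a
    have hb' : b ∈ S.erase a := Finset.mem_erase.2 ⟨hab.ne.symm, hb⟩
    have he : edgesIn (contract H a b) S = edgesIn (contract H a b) (S.erase a) := by
      ext e
      induction e using Sym2.ind with
      | _ x y =>
      rw [mem_edgesIn, mem_edgesIn]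
      constructor
      · rintro ⟨h1, h2, h3⟩
        exact ⟨h1, Finset.mem_erase.2 ⟨h1.2.1, h2⟩, Finset.mem_erase.2 ⟨h1.2.2.1, h3⟩⟩
      · rintro ⟨h1, h2, h3⟩
        exact ⟨h1, Finset.mem_of_mem_erase h2, Finset.mem_of_mem_erase h3⟩
    rw [he]
    have hle : (S.erase a).card ≤ S.card := Finset.card_erase_le
    set S0 := S.erase a with hS0
    have ha0 : a ∉ S0 := Finset.notMem_erase a S
    by_cases h1 : S0.card ≤ 1
    · have h2 : edgesIn (contract H a b) S0 = ∅ := by
        rw [Finset.eq_empty_iff_forall_notMem]
        intro e he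
        induction e using Sym2.ind with
        | _ x y =>
        rw [mem_edgesIn] at he
        exact he.1.1 (Finset.card_le_one.1 h1 x he.2.1 y he.2.2)
      rw [h2, Finset.card_empty]
      omega
    · have hS1 : (insert a S0).card = S0.card + 1 := Finset.card_insert_of_notMem ha0
      have hsp := hs (insert a S0) (by omega)
      have habE : s(a, b) ∈ edgesIn H (insert a S0) :=
        mem_edgesIn.2 ⟨hab, Finset.mem_insert_self _ _, Finset.mem_insert_of_mem hb'⟩
      by_cases ht : (edgesIn H (insert a S0)).card + 3 = 2 * (insert a S0).card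
      · have hT : Tight H (insert a S0) := ⟨by omega, ht⟩
        rcases hg with hg | ⟨w, haw, hbw, hg⟩
        · exact (hg _ hT (Finset.mem_insert_self _ _) (Finset.mem_insert_of_mem hb')).elim
        · have hw := hg _ hT (Finset.mem_insert_self _ _) (Finset.mem_insert_of_mem hb')
          have h3 := contract_card (H := H) (a := a) S0 hb' {s(a, b), s(a, w)}
            (by
              intro e he
              rw [Finset.mem_insert, Finset.mem_singleton] at he
              rcases he with he | he
              · exact Or.inl he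
              · exact Or.inr ⟨w, he, hbw⟩)
            (by
              intro e he
              rw [Finset.mem_insert, Finset.mem_singleton] at he
              rcases he with rfl | rfl
              · exact habE
              · exact mem_edgesIn.2 ⟨haw, Finset.mem_insert_self _ _, hw⟩)
          have h4 : ({s(a, b), s(a, w)} : Finset (Sym2 W)).card = 2 := by
            apply Finset.card_pair
            intro h
            rcases Sym2.eq_iff.1 h with ⟨-, h⟩ | ⟨h, -⟩
            · exact hbw.ne h
            · exact haw.ne h
          omega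
      · have h3 := contract_card (H := H) (a := a) S0 hb' {s(a, b)}
          (by
            intro e he
            rw [Finset.mem_singleton] at he
            exact Or.inl he)
          (by
            rw [Finset.singleton_subset_iff]
            exact habE)
        rw [Finset.card_singleton] at h3
        omega
  · have h1 : edgesIn (contract H a b) S ⊆ edgesIn H S := by
      intro e he
      induction e using Sym2.ind with
      | _ x y =>
      rw [mem_edgesIn] at he ⊢
      obtain ⟨⟨-, -, -, h⟩, hx, hy⟩ := he
      rcases h with h | ⟨rfl, -⟩ | ⟨rfl, -⟩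
      · exact ⟨h, hx, hy⟩
      · exact absurd hx hb
      · exact absurd hy hb
    have h2 := hs S hS
    have h3 := Finset.card_le_card h1
    omega

/-- a triangle is tight -/
theorem triangle_tight [DecidableEq W] {H : SimpleGraph W} (hs : Sparse H) {x y z : W}
    (hxy : H.Adj x y) (hyz : H.Adj y z) (hxz : H.Adj x z) : Tight H {x, y, z} := by
  have h1 : ({x, y, z} : Finset W).card = 3 := by
    rw [Finset.card_insert_of_notMem, Finset.card_pair hyz.ne]
    simp only [Finset.mem_insert, Finset.mem_singleton, not_or]
    exact ⟨hxy.ne, hxz.ne⟩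
  have h2 := hs {x, y, z} (by omega)
  have h3 : ({s(x, y), s(y, z), s(x, z)} : Finset (Sym2 W)) ⊆ edgesIn H {x, y, z} := by
    intro e he
    simp only [Finset.mem_insert, Finset.mem_singleton] at he
    rcases he with rfl | rfl | rfl
    · exact mem_edgesIn.2 ⟨hxy, by simp, by simp⟩
    · exact mem_edgesIn.2 ⟨hyz, by simp, by simp⟩
    · exact mem_edgesIn.2 ⟨hxz, by simp, by simp⟩
  have h4 : ({s(x, y), s(y, z), s(x, z)} : Finset (Sym2 W)).card = 3 := by
    have n1 := hxy.ne
    have n2 := hyz.ne
    have n3 := hxz.ne
    rw [Finset.card_insert_of_notMem, Finset.card_pair]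
    · intro h
      rcases Sym2.eq_iff.1 h with ⟨h, -⟩ | ⟨h, h'⟩
      · exact n1 h.symm
      · exact n2 h
    · simp only [Finset.mem_insert, Finset.mem_singleton, Sym2.eq_iff, not_or, not_and]
      exact ⟨⟨fun h => absurd h n1, fun h => absurd h n3⟩, ⟨fun _ h => n2 h, fun h => absurd h n3⟩⟩
  have h5 := Finset.card_le_card h3
  exact ⟨by omega, by omega⟩

theorem unique_common {H : SimpleGraph W} (hs : Sparse H) {a b : W} (hg : GoodEdge H a b) :
    ∃ w, ∀ x, H.Adj a x → H.Adj b x → x = w := by
  classical
  obtain ⟨hab, hg⟩ := hg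
  rcases hg with hg | ⟨w, haw, hbw, hg⟩
  · refine ⟨a, fun x h1 h2 => ?_⟩
    exact (hg _ (triangle_tight hs hab h2 h1) (by simp) (by simp)).elim
  · refine ⟨w, fun x h1 h2 => ?_⟩
    have h3 := hg _ (triangle_tight hs hab h2 h1) (by simp) (by simp)
    simp only [Finset.mem_insert, Finset.mem_singleton] at h3
    rcases h3 with h3 | h3 | h3
    · exact absurd h3.symm haw.ne
    · exact absurd h3.symm hbw.ne
    · exact h3.symm

theorem contract_lift {H : SimpleGraph W} (hs : Sparse H) {a b : W} (hg : GoodEdge H a b)
    (o : W → W → ZMod 2) (ho : ∀ x y, x ≠ y → o x y + o y x = 1)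
    (ih : ∀ o' : W → W → ZMod 2, (∀ x y, x ≠ y → o' x y + o' y x = 1) →
      ∃ X, Acy (contract H a b) o' X) :
    ∃ X, Acy H o X := by
  classical
  obtain ⟨w, hw⟩ := unique_common hs hg
  have hab : H.Adj a b := hg.1
  have hne : a ≠ b := hab.ne
  let s : ZMod 2 := o a w + o b w
  let g : W → ZMod 2 := fun y => if H.Adj b y then o b y else o a y + s
  let o' : W → W → ZMod 2 := fun x y => if x = b then g y else if y = b then g x + 1 else o x y
  have two : ∀ x : ZMod 2, x + x = 0 := by decide
  have ho' : ∀ x y, x ≠ y → o' x y + o' y x = 1 := by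
    intro x y hxy
    by_cases hx : x = b
    · have hy : y ≠ b := fun h => hxy (hx.trans h.symm)
      simp only [o', if_pos hx, if_neg hy]
      linear_combination two (g y)
    · by_cases hy : y = b
      · simp only [o', if_neg hx, if_pos hy]
        linear_combination two (g x)
      · simp only [o', if_neg hx, if_neg hy]
        exact ho x y hxy
  obtain ⟨X', hX'⟩ := ih o' ho'
  let X : W → ZMod 2 := fun x => if x = a then X' b + s else X' x
  let φ : W → W := fun x => if x = a then b else x
  have hφa : φ a = b := by simp [φ]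
  have hφ : ∀ x, x ≠ a → φ x = x := fun x hx => by simp [φ, hx]
  have hXa : X a = X' b + s := by simp [X]
  have hX : ∀ x, x ≠ a → X x = X' x := fun x hx => by simp [X, hx]
  -- the value of g at a neighbour of a
  have hga : ∀ y, H.Adj a y → g y = o a y + s := by
    intro y hy
    by_cases hby : H.Adj b y
    · have e := hw y hy hby
      simp only [g, if_pos hby, s]
      rw [e]
      linear_combination - two (o a w)
    · simp only [g, if_neg hby]
  have hgb : ∀ y, H.Adj b y → g y = o b y := by
    intro y hy
    simp only [g, if_pos hy]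
  -- one step
  have hstep : ∀ x y, H.Adj x y → o x y + X x + X y = 1 →
      (φ x = φ y) ∨ ((contract H a b).Adj (φ x) (φ y) ∧ o' (φ x) (φ y) + X' (φ x) + X' (φ y) = 1) := by
    intro x y hxy hval
    by_cases hx : x = a
    · subst hx
      by_cases hy : y = b
      · subst hy
        left
        rw [hφa, hφ _ hne.symm]
      · right
        have hya : y ≠ x := hxy.ne.symm
        rw [hφa, hφ y hya]
        refine ⟨⟨fun h => hy h.symm, hne.symm, hya, Or.inr (Or.inl ⟨rfl, hxy⟩)⟩, ?_⟩
        rw [hXa, hX y hya] at hval
        simp only [o', if_true]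
        rw [hga y hxy]
        linear_combination hval
    · by_cases hy : y = a
      · subst hy
        by_cases hxb : x = b
        · subst hxb
          left
          rw [hφa, hφ _ hx]
        · right
          rw [hφa, hφ x hx]
          refine ⟨⟨hxb, hx, hne.symm, Or.inr (Or.inr ⟨rfl, hxy.symm⟩)⟩, ?_⟩
          rw [hXa, hX x hx] at hval
          simp only [o', if_neg hxb, if_true]
          rw [hga x hxy.symm]
          have h1 := ho x y hxy.ne
          linear_combination hval - h1 + two (o y x)
      · right
        rw [hφ x hx, hφ y hy]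
        refine ⟨⟨hxy.ne, hx, hy, Or.inl hxy⟩, ?_⟩
        rw [hX x hx, hX y hy] at hval
        by_cases hxb : x = b
        · subst hxb
          simp only [o', if_true]
          rw [hgb y hxy]
          exact hval
        · by_cases hyb : y = b
          · subst hyb
            simp only [o', if_neg hxb, if_true]
            rw [hgb x hxy.symm]
            have h1 := ho x y hxy.ne
            linear_combination hval - h1 + two (o y x)
          · simp only [o', if_neg hxb, if_neg hyb]
            exact hval
  have hback : ∀ x y, H.Adj x y → φ x = φ y → (x = a ∧ y = b) ∨ (x = b ∧ y = a) := by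
    intro x y hxy h
    by_cases hx : x = a
    · subst hx
      left
      rw [hφa, hφ y hxy.ne.symm] at h
      exact ⟨rfl, h.symm⟩
    · by_cases hy : y = a
      · subst hy
        right
        rw [hφa, hφ x hx] at h
        exact ⟨h, rfl⟩
      · rw [hφ x hx, hφ y hy] at h
        exact absurd h hxy.ne
  refine ⟨X, ?_⟩
  intro u hu
  have key : ∀ v, TransGen (fun x y => H.Adj x y ∧ o x y + X x + X y = 1) u v →
      TransGen (fun x y => (contract H a b).Adj x y ∧ o' x y + X' x + X' y = 1) (φ u) (φ v) ∨
      ((H.Adj u v ∧ o u v + X u + X v = 1) ∧ φ u = φ v) := by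
    intro v hv
    induction hv with
    | single h =>
      rcases hstep _ _ h.1 h.2 with h1 | h1
      · exact Or.inr ⟨h, h1⟩
      · exact Or.inl (TransGen.single h1)
    | @tail v v' _ h ih =>
      rcases ih with ih | ⟨ih, ih'⟩
      · rcases hstep _ _ h.1 h.2 with h1 | h1
        · left
          rw [← h1]
          exact ih
        · exact Or.inl (ih.tail h1)
      · rcases hstep _ _ h.1 h.2 with h1 | h1
        · -- u v v' with both steps collapsed
          exfalso
          have e1 := hback _ _ ih.1 ih'
          have e2 := hback _ _ h.1 h1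
          have e3 : v' = u := by
            rcases e1 with ⟨h3, h4⟩ | ⟨h3, h4⟩ <;> rcases e2 with ⟨h5, h6⟩ | ⟨h5, h6⟩
            · exact absurd (h5.symm.trans h4) hne
            · rw [h6, h3]
            · rw [h6, h3]
            · exact absurd (h4.symm.trans h5) hne
          rw [e3] at h
          have h3 := ho u v ih.1.ne
          have h4 := ih.2
          have h5 := h.2
          have h6 : (1 : ZMod 2) = 0 := by
            linear_combination - h3 + h4 + h5 - two (X u) - two (X v) + two 1
          exact one_ne_zero h6
        · left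
          rw [ih']
          exact TransGen.single h1
  rcases key u hu with h | h
  · exact hX' _ h
  · exact h.1.1.ne rfl

end Pool.Agent.H27.PM
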