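import Mathlib

/-!
# A nonempty even edge set of a triangle-free graph has at least four edges
-/

set_option autoImplicit false

namespace Pool.Agent.H27.PM

open SimpleGraph

variable {W : Type*}

/-- every edge of an even set has a companion at each end -/
theorem exists_other [DecidableEq W] {C : Finset (Sym2 W)}
    (heven : ∀ w, Even (C.filter (fun h => w ∈ h)).card) {x y : W} (hxy : s(x, y) ∈ C) :
    ∃ h ∈ C, x ∈ h ∧ h ≠ s(x, y) := by
  by_contra hcon
  push Not at hcon
  have h1 : C.filter (fun h => x ∈ h) = {s(x, y)} := by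
    ext h
    simp only [Finset.mem_filter, Finset.mem_singleton]
    constructor
    · rintro ⟨h1, h2⟩
      exact hcon h h1 h2
    · rintro rfl
      exact ⟨hxy, Sym2.mem_mk_left _ _⟩
  have h2 := heven x
  rw [h1, Finset.card_singleton] at h2
  exact absurd h2 (by decide)

theorem four_le_card [DecidableEq W] {H : SimpleGraph W} (hH : H.CliqueFree 3)
    {C : Finset (Sym2 W)} (hC : ∀ h ∈ C, h ∈ H.edgeSet) (hne : C.Nonempty)
    (heven : ∀ w, Even (C.filter (fun h => w ∈ h)).card) : 4 ≤ C.card := by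
  obtain ⟨h0, hh0⟩ := hne
  induction h0 using Sym2.ind with
  | _ x y =>
  have hxy : H.Adj x y := hC _ hh0
  -- another edge at x
  obtain ⟨h1, hh1, hx1, hne1⟩ := exists_other heven hh0
  obtain ⟨z, rfl⟩ := Sym2.mem_iff_exists.1 hx1
  have hxz : H.Adj x z := hC _ hh1
  have hzy : z ≠ y := by rintro rfl; exact hne1 rfl
  -- another edge at y
  obtain ⟨h2, hh2, hy2, hne2⟩ := exists_other heven (x := y) (y := x) (by rwa [Sym2.eq_swap])
  obtain ⟨t, rfl⟩ := Sym2.mem_iff_exists.1 hy2
  have hyt : H.Adj y t := hC _ hh2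
  have htx : t ≠ x := by rintro rfl; exact hne2 rfl
  have htz : t ≠ z := by
    rintro rfl
    apply hH {x, y, t}
    rw [SimpleGraph.is3Clique_iff]
    exact ⟨x, y, t, hxy, hxz, hyt, rfl⟩
  -- another edge at z
  obtain ⟨h3, hh3, hz3, hne3⟩ := exists_other heven (x := z) (y := x) (by rwa [Sym2.eq_swap])
  obtain ⟨u, rfl⟩ := Sym2.mem_iff_exists.1 hz3
  have hzu : H.Adj z u := hC _ hh3
  have hux : u ≠ x := by rintro rfl; exact hne3 rfl
  have hsub : ({s(x, y), s(x, z), s(y, t), s(z, u)} : Finset (Sym2 W)) ⊆ C := by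
    intro h hh
    simp only [Finset.mem_insert, Finset.mem_singleton] at hh
    rcases hh with rfl | rfl | rfl | rfl
    · exact hh0
    · exact hh1
    · exact hh2
    · exact hh3
  have hcard : ({s(x, y), s(x, z), s(y, t), s(z, u)} : Finset (Sym2 W)).card = 4 := by
    have nxy := hxy.ne
    have nxz := hxz.ne
    have nyt := hyt.ne
    have nzu := hzu.ne
    rw [Finset.card_insert_of_notMem, Finset.card_insert_of_notMem, Finset.card_insert_of_notMem,
      Finset.card_singleton]
    · simp only [Finset.mem_singleton, Sym2.eq_iff]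
      rintro (⟨h, -⟩ | ⟨-, h⟩)
      · exact hzy h.symm
      · exact htz h
    · simp only [Finset.mem_insert, Finset.mem_singleton, Sym2.eq_iff]
      rintro ((⟨h, -⟩ | ⟨h, -⟩) | ⟨h, -⟩ | ⟨h, -⟩)
      · exact nxy h
      · exact htx h.symm
      · exact nxz h
      · exact hux h.symm
    · simp only [Finset.mem_insert, Finset.mem_singleton, Sym2.eq_iff]
      rintro ((⟨-, h⟩ | ⟨h, -⟩) | (⟨h, -⟩ | ⟨h, -⟩) | ⟨h, -⟩ | ⟨h, -⟩)
      · exact hzy h.symm
      · exact nxz h
      · exact nxy h
      · exact htx h.symm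
      · exact nxz h
      · exact hux h.symm
  rw [← hcard]
  exact Finset.card_le_card hsub

end Pool.Agent.H27.PM
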