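import Pool.Agent.H27.PM.Class
import Pool.Agent.H13.DA.RotD
import Pool.Agent.H13.DA.Sph

/-!
# Gluing: acyclic switchings of planar graphs from the statement for minors of spheres
-/

set_option autoImplicit false

namespace Pool.Agent.H27.PM

open Relation SimpleGraph Pool.Agent.H29.Tor Pool.Agent.H13.DA

/-- the sparse part: an abstract class of graphs, closed under deletion and contraction, in which
every tight set contains a triangle -/
def SparseMain (W : Type*) [Fintype W] : Prop :=
  ∀ (C : SimpleGraph W → Prop), (∀ H H' : SimpleGraph W, H' ≤ H → C H → C H') →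
    (∀ (H : SimpleGraph W) (a b : W), H.Adj a b → C H → C (contract H a b)) →
    (∀ (H : SimpleGraph W) (S : Finset W), C H → 3 ≤ S.card →
      (edgesIn H S).card + 3 = 2 * S.card → (∀ w ∈ S, ∃ w', H.Adj w w') →
      ∃ x ∈ S, ∃ y ∈ S, ∃ z ∈ S, H.Adj x y ∧ H.Adj y z ∧ H.Adj x z) →
    ∀ H : SimpleGraph W, C H → (∀ S : Finset W, 2 ≤ S.card → (edgesIn H S).card + 3 ≤ 2 * S.card) →
    ∀ o : W → W → ZMod 2, (∀ x y, x ≠ y → o x y + o y x = 1) →
    ∃ X : W → ZMod 2, ∀ u, ¬ TransGen (fun x y => H.Adj x y ∧ o x y + X x + X y = 1) u u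

section small

variable {W : Type*} [Fintype W]

theorem edgesIn_mono {H H' : SimpleGraph W} (h : H' ≤ H) (S : Finset W) :
    edgesIn H' S ⊆ edgesIn H S := by
  classical
  intro e he
  simp only [edgesIn, Finset.mem_filter, Finset.mem_univ, true_and] at he ⊢
  exact ⟨SimpleGraph.edgeSet_mono h he.1, he.2⟩

theorem edgesIn_small {H : SimpleGraph W} {S : Finset W} (hS : S.card ≤ 2) :
    (edgesIn H S).card ≤ 1 := by
  classical
  rw [Finset.card_le_one]
  intro e he e' he'
  simp only [edgesIn, Finset.mem_filter, Finset.mem_univ, true_and] at he he'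
  induction e using Sym2.ind with
  | _ x y =>
  induction e' using Sym2.ind with
  | _ x' y' =>
  have hxy : H.Adj x y := he.1
  have hxy' : H.Adj x' y' := he'.1
  have hx := he.2 x (Sym2.mem_mk_left _ _)
  have hy := he.2 y (Sym2.mem_mk_right _ _)
  have hx' := he'.2 x' (Sym2.mem_mk_left _ _)
  have hy' := he'.2 y' (Sym2.mem_mk_right _ _)
  have hsub : ({x, y} : Finset W) ⊆ S := by
    intro z hz
    rw [Finset.mem_insert, Finset.mem_singleton] at hz
    rcases hz with rfl | rfl
    · exact hx
    · exact hy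
  have hcard : ({x, y} : Finset W).card = 2 := Finset.card_pair hxy.ne
  have heq : ({x, y} : Finset W) = S := Finset.eq_of_subset_of_card_le hsub (by omega)
  rw [← heq, Finset.mem_insert, Finset.mem_singleton] at hx' hy'
  have hne := hxy'.ne
  rcases hx' with h1 | h1 <;> rcases hy' with h2 | h2
  · exact absurd (h1.trans h2.symm) hne
  · rw [h1, h2]
  · rw [h1, h2, Sym2.eq_swap]
  · exact absurd (h1.trans h2.symm) hne

/-- triangle-free minors of a sphere are sparse -/
theorem sparse_of_triangleFree {U : Type*} {T : Finset (U × U × U)} (hT : IsCx T) (hc : Conn T)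
    (hcl : Clos T) (h6 : chi T = 6) {H : SimpleGraph W} (hH : PMinor T H) (h3 : H.CliqueFree 3)
    (S : Finset W) (hS : 2 ≤ S.card) : (edgesIn H S).card + 3 ≤ 2 * S.card := by
  classical
  let S' := S.filter (fun w => ∃ w', H.Adj w w')
  have hle : S'.card ≤ S.card := Finset.card_filter_le _ _
  have he : edgesIn H S = edgesIn H S' := by
    ext e
    simp only [edgesIn, Finset.mem_filter, Finset.mem_univ, true_and]
    constructor
    · rintro ⟨h1, h2⟩
      refine ⟨h1, fun v hv => ?_⟩
      rw [Finset.mem_filter]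
      refine ⟨h2 v hv, ?_⟩
      obtain ⟨w, rfl⟩ := Sym2.mem_iff_exists.1 hv
      exact ⟨w, h1⟩
    · rintro ⟨h1, h2⟩
      exact ⟨h1, fun v hv => (Finset.mem_filter.1 (h2 v hv)).1⟩
  rw [he]
  by_cases h : 3 ≤ S'.card
  · have := hH.bound hT hc hcl h6 h (fun w hw => (Finset.mem_filter.1 hw).2) (by
      intro x _ y _ z _ hxy hyz hxz
      apply h3 {x, y, z}
      rw [SimpleGraph.is3Clique_iff]
      exact ⟨x, y, z, hxy, hxz, hyz, rfl⟩)
    omega
  · have := edgesIn_small (H := H) (S := S') (by omega)
    omega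

end small

/-- the main theorem for planar graphs, from the sparse part -/
theorem planar_switch {V : Type*} [Fintype V] (SM : SparseMain V) (G : SimpleGraph V)
    (hG : IsPlanar G)
    (hsp : G.CliqueFree 3 ∨ ∀ S : Finset V, 2 ≤ S.card → (edgesIn G S).card + 3 ≤ 2 * S.card)
    (o : V → V → ZMod 2) (ho : ∀ x y, x ≠ y → o x y + o y x = 1) :
    ∃ X : V → ZMod 2, ∀ u, ¬ TransGen (fun x y => G.Adj x y ∧ o x y + X x + X y = 1) u u := by
  classical
  obtain ⟨R, hR⟩ := hG
  have hcx := rt_cx R
  have hcl := rt_clos R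
  -- the graph of a component
  let HK : G.Dart → SimpleGraph V := fun d =>
    { Adj := fun x y => G.Adj x y ∧ G.connectedComponentMk x = G.connectedComponentMk d.fst
      symm := ⟨fun x y h => ⟨h.1.symm,
        (ConnectedComponent.connectedComponentMk_eq_of_adj h.1).symm.trans h.2⟩⟩
      loopless := ⟨fun x h => h.1.ne rfl⟩ }
  have hle : ∀ d, HK d ≤ G := fun d x y h => h.1
  have hX : ∀ d : G.Dart, ∃ X : V → ZMod 2,
      ∀ u, ¬ TransGen (fun x y => (HK d).Adj x y ∧ o x y + X x + X y = 1) u u := by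
    intro d
    set T := comp (RT R) (vx R d.fst, vx R d.snd, rx R (d, false)) with hTd
    have hT : IsCx T := comp_isCx hcx _
    have hc : Conn T := comp_conn hcx _
    have hclT : Clos T := comp_clos hcx hcl _
    have h6 : chi T = 6 := rt_spheres R hR _ (rt_edge R d)
    have hmem : ∀ x y (hxy : G.Adj x y), G.connectedComponentMk x = G.connectedComponentMk d.fst →
        (vx R x, vx R y, rx R (⟨(x, y), hxy⟩, false)) ∈ T := by
      intro x y hxy hx
      rw [hTd, mem_comp]
      refine ⟨rt_edge R ⟨(x, y), hxy⟩, ?_⟩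
      exact rt_AA R d ⟨(x, y), hxy⟩ (ConnectedComponent.exact hx.symm)
    have hPM : PMinor T (HK d) := by
      refine ⟨fun x => {u | u = vx R x ∧ ∃ y, (HK d).Adj x y}, ?_, ?_, ?_, ?_⟩
      · rintro x _ ⟨rfl, y, hxy⟩
        exact vert1 (hmem x y hxy.1 hxy.2)
      · rintro x x' _ ⟨rfl, -⟩ ⟨h, -⟩
        exact (vx_iff R _ _).1 h
      · rintro x _ ⟨rfl, -⟩ _ ⟨rfl, -⟩
        exact ReflTransGen.refl
      · intro x y hxy
        refine ⟨vx R x, ⟨rfl, y, hxy⟩, vx R y, ⟨rfl, x, hxy.symm⟩, Or.inl ⟨_, hmem x y hxy.1 hxy.2⟩⟩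
    refine SM (PMinor T) (fun H H' h hH => hH.mono h) (fun H a b hab hH => hH.contract hab) ?_
      (HK d) hPM ?_ o ho
    · intro H S hH hS htight hiso
      by_contra hcon
      have := hH.bound hT hc hclT h6 hS hiso (by
        intro x hx y hy z hz hxy hyz hxz
        exact hcon ⟨x, hx, y, hy, z, hz, hxy, hyz, hxz⟩)
      omega
    · intro S hS
      rcases hsp with h3 | hsp
      · exact sparse_of_triangleFree hT hc hclT h6 hPM (h3.anti (hle d)) S hS
      · exact (Nat.add_le_add_right (Finset.card_le_card (edgesIn_mono (hle d) S)) 3).trans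
          (hsp S hS)
  choose Xd hXd using hX
  let XK : G.ConnectedComponent → V → ZMod 2 := fun K =>
    if h : ∃ d : G.Dart, G.connectedComponentMk d.fst = K then Xd h.choose else fun _ => 0
  refine ⟨fun v => XK (G.connectedComponentMk v) v, ?_⟩
  intro u hu
  obtain ⟨u', hu', _⟩ := TransGen.head'_iff.1 hu
  have hex : ∃ d : G.Dart, G.connectedComponentMk d.fst = G.connectedComponentMk u :=
    ⟨⟨(u, u'), hu'.1⟩, rfl⟩
  have hcK : XK (G.connectedComponentMk u) = Xd hex.choose := by
    simp only [XK, dif_pos hex]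
  have hd0 : G.connectedComponentMk hex.choose.fst = G.connectedComponentMk u := hex.choose_spec
  set d0 := hex.choose with hd0'
  have key : ∀ v, TransGen (fun x y => G.Adj x y ∧ o x y + XK (G.connectedComponentMk x) x +
      XK (G.connectedComponentMk y) y = 1) u v →
      G.connectedComponentMk v = G.connectedComponentMk u ∧
      TransGen (fun x y => (HK d0).Adj x y ∧ o x y + Xd d0 x + Xd d0 y = 1) u v := by
    have step : ∀ x y, G.connectedComponentMk x = G.connectedComponentMk u →
        (G.Adj x y ∧ o x y + XK (G.connectedComponentMk x) x +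
          XK (G.connectedComponentMk y) y = 1) →
        G.connectedComponentMk y = G.connectedComponentMk u ∧
        ((HK d0).Adj x y ∧ o x y + Xd d0 x + Xd d0 y = 1) := by
      rintro x y hx ⟨hxy, h2⟩
      have hy : G.connectedComponentMk y = G.connectedComponentMk u := by
        rw [← hx]
        exact (ConnectedComponent.connectedComponentMk_eq_of_adj hxy).symm
      refine ⟨hy, ⟨hxy, hx.trans hd0.symm⟩, ?_⟩
      rw [hx, hy, hcK] at h2
      exact h2
    intro v hv
    induction hv with
    | single h =>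
      obtain ⟨h1, h2⟩ := step _ _ rfl h
      exact ⟨h1, TransGen.single h2⟩
    | tail _ h ih =>
      obtain ⟨h1, h2⟩ := step _ _ ih.1 h
      exact ⟨h1, ih.2.tail h2⟩
  exact hXd d0 _ (key u hu).2

end Pool.Agent.H27.PM
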