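import Pool.Agent.H27.PM.SphereMap

/-!
# The edge bound for triangle-free minors of a triangulated sphere
-/

set_option autoImplicit false

namespace Pool.Agent.H27.PM

open Relation Pool.Agent.H13.DA

/-- `x` reaches `Z` in exactly `n` steps -/
def Rn {X : Type*} (R : X → X → Prop) (Z : X → Prop) : ℕ → X → Prop
  | 0, x => Z x
  | n + 1, x => ∃ y, R x y ∧ Rn R Z n y

/-- shortest path parents -/
theorem par_exists {X : Type*} (R : X → X → Prop) (Z : X → Prop)
    (h : ∀ x, ∃ z, Z z ∧ ReflTransGen R x z) :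
    ∃ (par : X → X) (rk : X → ℕ), (∀ x, Z x → rk x = 0) ∧
      ∀ x, ¬ Z x → R x (par x) ∧ rk x = rk (par x) + 1 := by
  classical
  have hex : ∀ x, ∃ n, Rn R Z n x := by
    intro x
    obtain ⟨z, hz, hxz⟩ := h x
    induction hxz using ReflTransGen.head_induction_on with
    | refl => exact ⟨0, hz⟩
    | head h1 _ ih =>
      obtain ⟨n, hn⟩ := ih
      exact ⟨n + 1, _, h1, hn⟩
  let rk : X → ℕ := fun x => Nat.find (hex x)
  have hrk : ∀ x, Rn R Z (rk x) x := fun x => Nat.find_spec (hex x)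
  have hmin : ∀ x n, Rn R Z n x → rk x ≤ n := fun x n hn => Nat.find_min' (hex x) hn
  have hpar : ∀ x, ¬ Z x → ∃ y, R x y ∧ rk x = rk y + 1 := by
    intro x hx
    have h1 := hrk x
    rcases Nat.eq_zero_or_pos (rk x) with h0 | h0
    · rw [h0] at h1
      exact absurd h1 hx
    · obtain ⟨m, hm⟩ := Nat.exists_eq_succ_of_ne_zero h0.ne'
      rw [hm] at h1
      obtain ⟨y, hy1, hy2⟩ := h1
      refine ⟨y, hy1, ?_⟩
      have h2 := hmin y m hy2
      have h3 := hmin x (rk y + 1) ⟨y, hy1, hrk y⟩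
      omega
  refine ⟨fun x => if hx : Z x then x else (hpar x hx).choose, rk, ?_, ?_⟩
  · intro x hx
    exact Nat.le_zero.1 (hmin x 0 hx)
  · intro x hx
    simp only [dif_neg hx]
    exact (hpar x hx).choose_spec

variable {U : Type*} {T : Finset (U × U × U)}

theorem adj_symm' {x y : U} (h : Adj T x y) : Adj T y x := Or.symm h

theorem vert_conn (_hT : IsCx T) (hc : Conn T) {x y : U} (hx : x ∈ verts T) (hy : y ∈ verts T) :
    ReflTransGen (Adj T) x y := by
  obtain ⟨b, c, h⟩ := mem_verts.1 hx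
  obtain ⟨b', c', h'⟩ := mem_verts.1 hy
  have key : ∀ s t : U × U × U, ReflTransGen (Step T) s t → ReflTransGen (Adj T) s.1 t.1 := by
    intro s t hst
    induction hst with
    | refl => exact ReflTransGen.refl
    | tail _ h ih =>
      cases h with
      | rot h => exact ih.tail (Or.inl ⟨_, h⟩)
      | flip h h' => exact ih.tail (Or.inl ⟨_, h⟩)
  exact key _ _ (hc _ h _ h')

theorem adj_verts (hT : IsCx T) {x y : U} (h : Adj T x y) : x ∈ verts T ∧ y ∈ verts T := by
  rcases h with ⟨c, h⟩ | ⟨c, h⟩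
  · exact ⟨vert1 h, vert2 hT h⟩
  · exact ⟨vert2 hT h, vert1 h⟩

/-- minors of a triangulated sphere: the edge bound for triangle-free graphs -/
theorem minor_bound (hT : IsCx T) (hc : Conn T) (hcl : Clos T) (h6 : chi T = 6)
    {W : Type*} [Fintype W] (H : SimpleGraph W) (B : W → Set U)
    (hne : ∀ w, (B w).Nonempty) (hV : ∀ w, ∀ u ∈ B w, u ∈ verts T)
    (hdisj : ∀ w w' u, u ∈ B w → u ∈ B w' → w = w')
    (hconn : ∀ w, ∀ x ∈ B w, ∀ y ∈ B w, ReflTransGen (fun x y => Adj T x y ∧ y ∈ B w) x y)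
    (hadj : ∀ a b, H.Adj a b → ∃ u ∈ B a, ∃ v ∈ B b, Adj T u v)
    (hH : H.CliqueFree 3) (hW : 3 ≤ Fintype.card W) :
    Nat.card H.edgeSet + 4 ≤ 2 * Fintype.card W := by
  classical
  let V := {v // v ∈ verts T}
  choose rt hrt using hne
  let cov : V → Prop := fun v => ∃ w, v.1 ∈ B w
  have hWne : Nonempty W := Fintype.card_pos_iff.1 (by omega)
  let w0 : W := Classical.arbitrary W
  let cw : V → W := fun v => if h : cov v then h.choose else w0
  have hcw : ∀ (v : V) (w : W), v.1 ∈ B w → cw v = w := by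
    intro v w hv
    have h : cov v := ⟨w, hv⟩
    simp only [cw, dif_pos h]
    exact hdisj _ _ _ h.choose_spec hv
  let root : W → V := fun w => ⟨rt w, hV w _ (hrt w)⟩
  -- inside the branch sets
  obtain ⟨p1, r1, hr1, hp1⟩ := par_exists (X := V)
    (fun x y => Adj T x.1 y.1 ∧ ∃ w, x.1 ∈ B w ∧ y.1 ∈ B w)
    (fun x => ¬ cov x ∨ ∃ w, x = root w) (by
      intro x
      by_cases hx : cov x
      · obtain ⟨w, hw⟩ := hx
        refine ⟨root w, Or.inr ⟨w, rfl⟩, ?_⟩
        have h1 := hconn w x.1 hw (rt w) (hrt w)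
        have key : ∀ z, ReflTransGen (fun x y => Adj T x y ∧ y ∈ B w) x.1 z →
            ∃ hz : z ∈ B w, ReflTransGen (fun x y : V => Adj T x.1 y.1 ∧ ∃ w, x.1 ∈ B w ∧ y.1 ∈ B w)
              x ⟨z, hV w z hz⟩ := by
          intro z hz
          induction hz with
          | refl => exact ⟨hw, ReflTransGen.refl⟩
          | @tail y z _ h ih =>
            obtain ⟨hy, ih⟩ := ih
            exact ⟨h.2, ih.tail ⟨h.1, w, hy, h.2⟩⟩
        obtain ⟨_, h2⟩ := key _ h1
        exact h2
      · exact ⟨x, Or.inl hx, ReflTransGen.refl⟩)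
  -- outside
  obtain ⟨p2, r2, hr2, hp2⟩ := par_exists (X := V) (fun x y => Adj T x.1 y.1) cov (by
      intro x
      refine ⟨root w0, ⟨w0, hrt w0⟩, ?_⟩
      have h1 := vert_conn hT hc x.2 (root w0).2
      have key : ∀ z, ReflTransGen (Adj T) x.1 z → ∃ hz : z ∈ verts T,
          ReflTransGen (fun x y : V => Adj T x.1 y.1) x ⟨z, hz⟩ := by
        intro z hz
        induction hz with
        | refl => exact ⟨x.2, ReflTransGen.refl⟩
        | @tail y z _ h ih =>
          obtain ⟨hy, ih⟩ := ih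
          exact ⟨(adj_verts hT h).2, ih.tail h⟩
      obtain ⟨_, h2⟩ := key _ h1
      exact h2)
  let π : V → W := fun v => cw (p2^[r2 v] v)
  have hπcov : ∀ (v : V) (w : W), v.1 ∈ B w → π v = w := by
    intro v w hv
    have h1 : r2 v = 0 := hr2 v ⟨w, hv⟩
    simp only [π, h1, Function.iterate_zero, id_eq]
    exact hcw v w hv
  have hπout : ∀ v : V, ¬ cov v → π (p2 v) = π v := by
    intro v hv
    obtain ⟨h1, h2⟩ := hp2 v hv
    simp only [π, h2, Function.iterate_succ, Function.comp_apply]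
  let N : ℕ := (Finset.univ.sup r1) + 1
  have hN : ∀ v, r1 v < N := fun v => Nat.lt_succ_of_le (Finset.le_sup (Finset.mem_univ v))
  let par : V → V := fun v => if cov v then p1 v else p2 v
  let rk : V → ℕ := fun v => if cov v then r1 v else N + r2 v
  have hroot : ∀ w, π (root w) = w := fun w => hπcov _ w (hrt w)
  -- a covered vertex which is not a root
  have hc1 : ∀ v : V, cov v → v ≠ root (π v) → Adj T v.1 (p1 v).1 ∧
      (∃ w, v.1 ∈ B w ∧ (p1 v).1 ∈ B w) ∧ r1 v = r1 (p1 v) + 1 := by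
    intro v hv hvr
    have h1 := hp1 v (by
      rintro (h | ⟨w, h⟩)
      · exact h hv
      · apply hvr
        rw [h, hroot])
    exact ⟨h1.1.1, h1.1.2, h1.2⟩
  have hadjpar : ∀ v : V, v ≠ root (π v) → Adj T v.1 (par v).1 := by
    intro v hv
    by_cases hcv : cov v
    · simp only [par, if_pos hcv]
      exact (hc1 v hcv hv).1
    · simp only [par, if_neg hcv]
      exact (hp2 v hcv).1
  let M := sphereMap hT hc hcl h6
  have hends : ∀ e : {e // e ∈ edges T}, ∀ x y : V, e.1 = s(x.1, y.1) →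
      s(M.a e, M.b e) = s(x, y) := by
    intro e x y he
    have h3 := (e_spec hcl e).2.2
    rw [he] at h3
    rw [Sym2.eq_iff] at h3 ⊢
    rcases h3 with ⟨h4, h5⟩ | ⟨h4, h5⟩
    · exact Or.inl ⟨Subtype.ext h4.symm, Subtype.ext h5.symm⟩
    · exact Or.inr ⟨Subtype.ext h5.symm, Subtype.ext h4.symm⟩
  have hrep : ∀ h : H.edgeSet, ∃ e : {e // e ∈ edges T}, s(π (M.a e), π (M.b e)) = h.1 := by
    rintro ⟨h, hh⟩
    induction h using Sym2.ind with
    | _ x y =>
      obtain ⟨u, hu, v, hv, huv⟩ := hadj x y hh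
      refine ⟨⟨s(u, v), edge_iff.2 huv⟩, ?_⟩
      have h1 := hends ⟨s(u, v), edge_iff.2 huv⟩ ⟨u, hV _ _ hu⟩ ⟨v, hV _ _ hv⟩ rfl
      have h2 : s(π (M.a ⟨s(u, v), edge_iff.2 huv⟩), π (M.b ⟨s(u, v), edge_iff.2 huv⟩)) =
          Sym2.map π s(M.a ⟨s(u, v), edge_iff.2 huv⟩, M.b ⟨s(u, v), edge_iff.2 huv⟩) := rfl
      rw [h2, h1]
      simp only [Sym2.map_mk]
      rw [hπcov _ x hu, hπcov _ y hv]
  choose rep hrep using hrep
  have hVne : Nonempty {e // e ∈ edges T} ∨ ∀ v : V, v = root (π v) := by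
    by_cases h : ∃ v : V, v ≠ root (π v)
    · obtain ⟨v, hv⟩ := h
      exact Or.inl ⟨⟨s(v.1, (par v).1), edge_iff.2 (hadjpar v hv)⟩⟩
    · push Not at h
      exact Or.inr h
  have hpe : ∃ pe : V → {e // e ∈ edges T}, ∀ v, v ≠ root (π v) →
      s(M.a (pe v), M.b (pe v)) = s(v, par v) := by
    have : ∀ v : V, ∃ e : {e // e ∈ edges T}, v ≠ root (π v) → s(M.a e, M.b e) = s(v, par v) := by
      intro v
      by_cases hv : v = root (π v)
      · obtain ⟨b, c, h⟩ := mem_verts.1 v.2
        exact ⟨⟨s(v.1, b), edge_iff.2 (Or.inl ⟨c, h⟩)⟩, fun h => absurd hv h⟩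
      · exact ⟨⟨s(v.1, (par v).1), edge_iff.2 (hadjpar v hv)⟩, fun _ => hends _ _ _ rfl⟩
    choose pe hpe using this
    exact ⟨pe, hpe⟩
  obtain ⟨pe, hpe⟩ := hpe
  let Nm : Mdl M H :=
    { π := π
      root := root
      π_root := hroot
      par := par
      pe := pe
      rk := rk
      pe_ends := hpe
      π_par := by
        intro v hv
        by_cases hcv : cov v
        · obtain ⟨-, ⟨w, h1, h2⟩, -⟩ := hc1 v hcv hv
          simp only [par, if_pos hcv]
          rw [hπcov _ w h1, hπcov _ w h2]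
        · simp only [par, if_neg hcv]
          exact hπout v hcv
      rk_par := by
        intro v hv
        by_cases hcv : cov v
        · obtain ⟨-, ⟨w, h1, h2⟩, h3⟩ := hc1 v hcv hv
          have h4 : cov (p1 v) := ⟨w, h2⟩
          simp only [par, rk, if_pos hcv, if_pos h4]
          omega
        · have h3 := (hp2 v hcv).2
          by_cases h4 : cov (p2 v)
          · simp only [par, rk, if_neg hcv, if_pos h4]
            have := hN (p2 v)
            omega
          · simp only [par, rk, if_neg hcv, if_neg h4]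
            omega
      rep := rep
      rep_ends := hrep }
  exact bound Nm hH hW

end Pool.Agent.H27.PM
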