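import Pool.Agent.H27.PM.Bound
import Pool.Agent.H13.DA.Comp
import Pool.Agent.H13.DA.Chi

/-!
# A triangulated sphere is an abstract planar map
-/

set_option autoImplicit false

namespace Pool.Agent.H27.PM

open Relation Pool.Agent.H13.DA

variable {U : Type*} {T : Finset (U × U × U)}

open Classical in
/-- the faces: orbits of triples under rotation -/
noncomputable def faces (T : Finset (U × U × U)) : Finset (Finset (U × U × U)) :=
  T.image (fun t => tri t.1 t.2.1 t.2.2)

theorem mem_faces {a b c : U} (h : (a, b, c) ∈ T) : tri a b c ∈ faces T := by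
  classical
  exact Finset.mem_image.2 ⟨(a, b, c), h, rfl⟩

theorem tri_of_mem' {a b c x y z : U} (h : (x, y, z) ∈ tri a b c) : tri a b c = tri x y z := by
  rcases mem_tri.1 h with h | h | h
  · simp only [Prod.mk.injEq] at h
    obtain ⟨rfl, rfl, rfl⟩ := h
    rfl
  · simp only [Prod.mk.injEq] at h
    obtain ⟨rfl, rfl, rfl⟩ := h
    exact tri_eq _ _ _
  · simp only [Prod.mk.injEq] at h
    obtain ⟨rfl, rfl, rfl⟩ := h
    rw [tri_eq, tri_eq]

theorem card_faces (hT : IsCx T) : T.card = 3 * (faces T).card := by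
  classical
  have h1 : T.card = ∑ f ∈ faces T, (T.filter (fun t => tri t.1 t.2.1 t.2.2 = f)).card := by
    apply Finset.card_eq_sum_card_fiberwise
    intro t ht
    simp only [faces, Finset.coe_image, Set.mem_image, Finset.mem_coe]
    exact ⟨t, ht, rfl⟩
  rw [h1, Finset.sum_const_nat (m := 3), mul_comm]
  intro f hf
  obtain ⟨⟨a, b, c⟩, h, rfl⟩ := Finset.mem_image.1 hf
  obtain ⟨n1, n2, n3⟩ := cx_ne hT h
  rw [← tri_card n1 n2 n3]
  congr 1
  ext ⟨x, y, z⟩
  simp only [Finset.mem_filter]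
  constructor
  · rintro ⟨-, h2⟩
    rw [← h2, mem_tri]
    exact Or.inl rfl
  · intro h2
    exact ⟨tri_sub hT h h2, (tri_of_mem' h2).symm⟩

/-- the two triples at an edge -/
theorem edge_trip (hcl : Clos T) (e : {e // e ∈ edges T}) :
    ∃ a b c d, (a, b, c) ∈ T ∧ (b, a, d) ∈ T ∧ e.1 = s(a, b) := by
  classical
  obtain ⟨e, he⟩ := e
  obtain ⟨⟨a, b, c⟩, h, rfl⟩ := Finset.mem_image.1 he
  obtain ⟨d, hd⟩ := hcl _ _ _ h
  exact ⟨a, b, c, d, h, hd, rfl⟩

section mk

variable (hT : IsCx T) (hc : Conn T) (hcl : Clos T) (h6 : chi T = 6)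

/-- first end -/
noncomputable def eA (e : {e // e ∈ edges T}) : U := (edge_trip hcl e).choose
/-- second end -/
noncomputable def eB (e : {e // e ∈ edges T}) : U := (edge_trip hcl e).choose_spec.choose
/-- third vertex of the first triangle -/
noncomputable def eC (e : {e // e ∈ edges T}) : U :=
  (edge_trip hcl e).choose_spec.choose_spec.choose
/-- third vertex of the second triangle -/
noncomputable def eD (e : {e // e ∈ edges T}) : U :=
  (edge_trip hcl e).choose_spec.choose_spec.choose_spec.choose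

theorem e_spec (e : {e // e ∈ edges T}) : (eA hcl e, eB hcl e, eC hcl e) ∈ T ∧
    (eB hcl e, eA hcl e, eD hcl e) ∈ T ∧ e.1 = s(eA hcl e, eB hcl e) :=
  (edge_trip hcl e).choose_spec.choose_spec.choose_spec.choose_spec

/-- for any function on the faces and any edge `ab`, the sum over the two sides -/
theorem side_sum (hT : IsCx T) (A : {f // f ∈ faces T} → ZMod 2) (e : {e // e ∈ edges T})
    {a b c d : U}
    (h : (a, b, c) ∈ T) (h' : (b, a, d) ∈ T) (he : e.1 = s(a, b)) :
    A ⟨tri (eA hcl e) (eB hcl e) (eC hcl e), mem_faces (e_spec hcl e).1⟩ +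
      A ⟨tri (eB hcl e) (eA hcl e) (eD hcl e), mem_faces (e_spec hcl e).2.1⟩ =
    A ⟨tri a b c, mem_faces h⟩ + A ⟨tri b a d, mem_faces h'⟩ := by
  obtain ⟨h1, h2, h3⟩ := e_spec hcl e
  generalize eA hcl e = x at *
  generalize eB hcl e = y at *
  generalize eC hcl e = z at *
  generalize eD hcl e = w at *
  rw [he] at h3
  rcases Sym2.eq_iff.1 h3 with ⟨rfl, rfl⟩ | ⟨rfl, rfl⟩
  · have e1 := hT.uniq h1 h
    have e2 := hT.uniq h2 h'
    subst e1 e2
    rfl
  · have e1 := hT.uniq h1 h'
    have e2 := hT.uniq h2 h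
    subst e1 e2
    rw [add_comm]

end mk

end Pool.Agent.H27.PM
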