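import Pool.Agent.H27.PM.Sphere

/-!
# A triangulated sphere is an abstract planar map: the three properties
-/

set_option autoImplicit false

namespace Pool.Agent.H27.PM

open Relation Pool.Agent.H13.DA

variable {U : Type*} {T : Finset (U × U × U)}

open Classical in
/-- a function on the faces read on triples -/
noncomputable def onT (A : {f // f ∈ faces T} → ZMod 2) (t : U × U × U) : ZMod 2 :=
  if h : t ∈ T then A ⟨tri t.1 t.2.1 t.2.2, mem_faces h⟩ else 0

theorem onT_mem (A : {f // f ∈ faces T} → ZMod 2) {a b c : U} (h : (a, b, c) ∈ T) :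
    onT A (a, b, c) = A ⟨tri a b c, mem_faces h⟩ := by
  unfold onT
  rw [dif_pos h]

theorem onT_rot (hT : IsCx T) (A : {f // f ∈ faces T} → ZMod 2) {a b c : U} (h : (a, b, c) ∈ T) :
    onT A (b, c, a) = onT A (a, b, c) := by
  rw [onT_mem A h, onT_mem A (hT.rot h)]
  congr 1
  exact Subtype.ext (tri_eq a b c).symm

theorem vertex_sum (hT : IsCx T) (hcl : Clos T) (A : {f // f ∈ faces T} → ZMod 2) (v : U) :
    (∑ e : {e // e ∈ edges T}, open Classical in if v ∈ e.1 then
      A ⟨tri (eA hcl e) (eB hcl e) (eC hcl e), mem_faces (e_spec hcl e).1⟩ +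
      A ⟨tri (eB hcl e) (eA hcl e) (eD hcl e), mem_faces (e_spec hcl e).2.1⟩ else 0) = 0 := by
  classical
  let Tv := T.filter (fun t => t.1 = v)
  have h1 : ∀ e : {e // e ∈ edges T}, (if v ∈ e.1 then
      A ⟨tri (eA hcl e) (eB hcl e) (eC hcl e), mem_faces (e_spec hcl e).1⟩ +
      A ⟨tri (eB hcl e) (eA hcl e) (eD hcl e), mem_faces (e_spec hcl e).2.1⟩ else 0) =
      (∑ t ∈ Tv.filter (fun t => s(v, t.2.1) = e.1), onT A t) +
      (∑ t ∈ Tv.filter (fun t => s(v, t.2.2) = e.1), onT A t) := by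
    intro e
    by_cases hv : v ∈ e.1
    · rw [if_pos hv]
      obtain ⟨y, hy⟩ := Sym2.mem_iff_exists.1 hv
      have hex : ∃ c d, (v, y, c) ∈ T ∧ (y, v, d) ∈ T := by
        obtain ⟨a, b, c, d, h1, h2, h3⟩ := edge_trip hcl e
        rw [hy] at h3
        rcases Sym2.eq_iff.1 h3 with ⟨rfl, rfl⟩ | ⟨rfl, rfl⟩
        · exact ⟨c, d, h1, h2⟩
        · exact ⟨d, c, h2, h1⟩
      obtain ⟨c, d, hc1, hd1⟩ := hex
      rw [side_sum hcl hT A e hc1 hd1 hy]
      have hvy : v ≠ y := hT.ne hc1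
      have e1 : Tv.filter (fun t => s(v, t.2.1) = e.1) = {(v, y, c)} := by
        ext ⟨t1, t2, t3⟩
        simp only [Tv, Finset.mem_filter, Finset.mem_singleton, hy, Prod.mk.injEq]
        constructor
        · rintro ⟨⟨h1, rfl⟩, h2⟩
          rcases Sym2.eq_iff.1 h2 with ⟨-, rfl⟩ | ⟨h3, -⟩
          · exact ⟨rfl, rfl, hT.uniq h1 hc1⟩
          · exact absurd h3 hvy
        · rintro ⟨rfl, rfl, rfl⟩
          exact ⟨⟨hc1, rfl⟩, rfl⟩
      have hd2 : (v, d, y) ∈ T := hT.rot hd1
      have e2 : Tv.filter (fun t => s(v, t.2.2) = e.1) = {(v, d, y)} := by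
        ext ⟨t1, t2, t3⟩
        simp only [Tv, Finset.mem_filter, Finset.mem_singleton, hy, Prod.mk.injEq]
        constructor
        · rintro ⟨⟨h1, rfl⟩, h2⟩
          rcases Sym2.eq_iff.1 h2 with ⟨-, rfl⟩ | ⟨h3, -⟩
          · exact ⟨rfl, hT.uniq (rot3 hT h1).2 hd1, rfl⟩
          · exact absurd h3 hvy
        · rintro ⟨rfl, rfl, rfl⟩
          exact ⟨⟨hd2, rfl⟩, rfl⟩
      rw [e1, e2, Finset.sum_singleton, Finset.sum_singleton, onT_mem A hc1, onT_rot hT A hd1,
        onT_mem A hd1]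
    · rw [if_neg hv, Finset.filter_eq_empty_iff.2, Finset.filter_eq_empty_iff.2, Finset.sum_empty,
        add_zero]
      · intro t _ h
        apply hv
        rw [← h]
        exact Sym2.mem_mk_left _ _
      · intro t _ h
        apply hv
        rw [← h]
        exact Sym2.mem_mk_left _ _
  rw [Finset.sum_congr rfl (fun e _ => h1 e), Finset.sum_add_distrib]
  have h2 : ∀ g : U × U × U → Sym2 U, (∀ t ∈ Tv, g t ∈ edges T) →
      (∑ e : {e // e ∈ edges T}, ∑ t ∈ Tv.filter (fun t => g t = e.1), onT A t) =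
      ∑ t ∈ Tv, onT A t := by
    intro g hg
    rw [← Finset.sum_fiberwise_of_maps_to hg (fun t => onT A t),
      ← Finset.sum_coe_sort (edges T)]
  rw [h2 (fun t => s(v, t.2.1)), h2 (fun t => s(v, t.2.2))]
  · exact CharTwo.add_self_eq_zero _
  · rintro ⟨t1, t2, t3⟩ ht
    simp only [Tv, Finset.mem_filter] at ht
    obtain ⟨ht, rfl⟩ := ht
    exact edge_iff.2 (Or.inr ⟨t2, (rot3 hT ht).2⟩)
  · rintro ⟨t1, t2, t3⟩ ht
    simp only [Tv, Finset.mem_filter] at ht
    obtain ⟨ht, rfl⟩ := ht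
    exact edge_iff.2 (Or.inl ⟨t3, ht⟩)

open Classical in
/-- a triangulated sphere as an abstract planar map -/
noncomputable def sphereMap (hT : IsCx T) (hc : Conn T) (hcl : Clos T) (h6 : chi T = 6) :
    PMap {v // v ∈ verts T} {e // e ∈ edges T} {f // f ∈ faces T} where
  a e := ⟨eA hcl e, vert1 (e_spec hcl e).1⟩
  b e := ⟨eB hcl e, vert2 hT (e_spec hcl e).1⟩
  l e := ⟨tri (eA hcl e) (eB hcl e) (eC hcl e), mem_faces (e_spec hcl e).1⟩
  r e := ⟨tri (eB hcl e) (eA hcl e) (eD hcl e), mem_faces (e_spec hcl e).2.1⟩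
  euler := by
    have h1 := card_faces hT
    unfold chi at h6
    rw [Fintype.card_coe, Fintype.card_coe, Fintype.card_coe]
    omega
  even := by
    intro A v
    rw [← Finset.sum_add_distrib]
    refine Eq.trans (Finset.sum_congr rfl fun e _ => ?_) (vertex_sum hT hcl A v.1)
    obtain ⟨h1, h2, h3⟩ := e_spec hcl e
    have hne := hT.ne h1
    have ea : ((⟨eA hcl e, vert1 (e_spec hcl e).1⟩ : {v // v ∈ verts T}) = v) ↔
        eA hcl e = v.1 := Subtype.ext_iff
    have eb : ((⟨eB hcl e, vert2 hT (e_spec hcl e).1⟩ : {v // v ∈ verts T}) = v) ↔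
        eB hcl e = v.1 := Subtype.ext_iff
    by_cases hv : v.1 ∈ e.1
    · rw [if_pos hv]
      rw [h3, Sym2.mem_iff] at hv
      rcases hv with hv | hv
      · rw [if_pos (ea.2 hv.symm), if_neg, add_zero]
        intro h
        exact hne (hv.symm.trans (eb.1 h).symm)
      · rw [if_neg, if_pos (eb.2 hv.symm), zero_add]
        intro h
        exact hne ((ea.1 h).trans hv)
    · rw [if_neg hv, if_neg, if_neg, add_zero]
      · intro h
        apply hv
        rw [h3, ← eb.1 h]
        exact Sym2.mem_mk_right _ _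
      · intro h
        apply hv
        rw [h3, ← ea.1 h]
        exact Sym2.mem_mk_left _ _
  dual := by
    intro A hA
    have h1 : ∀ s t, ReflTransGen (Step T) s t → s ∈ T → onT A s = onT A t := by
      intro s t h hs
      induction h with
      | refl => rfl
      | tail _ h ih =>
        rw [ih]
        cases h with
        | rot h => exact (onT_rot hT A h).symm
        | @flip a b c d h h' =>
          rw [onT_mem A h, onT_mem A h']
          have h2 := side_sum hcl hT A ⟨s(a, b), edge_iff.2 (Or.inl ⟨c, h⟩)⟩ h h' rfl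
          have h3 := hA ⟨s(a, b), edge_iff.2 (Or.inl ⟨c, h⟩)⟩
          rw [h3, CharTwo.add_self_eq_zero] at h2
          exact CharTwo.add_eq_zero.1 h2.symm
    rintro ⟨f, hf⟩ ⟨g, hg⟩
    obtain ⟨⟨a, b, c⟩, h, rfl⟩ := Finset.mem_image.1 hf
    obtain ⟨⟨a', b', c'⟩, h', rfl⟩ := Finset.mem_image.1 hg
    have h2 := h1 _ _ (hc _ h _ h') h
    rw [onT_mem A h, onT_mem A h'] at h2
    exact h2

end Pool.Agent.H27.PM
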