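import Pool.Agent.H27.PM.Contr

/-!
# Existence of a good edge in a sparse graph all of whose tight sets contain triangles
-/

set_option autoImplicit false

namespace Pool.Agent.H27.PM

open Relation

variable {W : Type*} [Fintype W]

section super
variable [DecidableEq W]

theorem edgesIn_inter (H : SimpleGraph W) (S T : Finset W) :
    edgesIn H S ∩ edgesIn H T = edgesIn H (S ∩ T) := by
  ext e
  induction e using Sym2.ind with
  | _ x y =>
  rw [Finset.mem_inter, mem_edgesIn, mem_edgesIn, mem_edgesIn, Finset.mem_inter, Finset.mem_inter]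
  tauto

theorem edgesIn_union_sub (H : SimpleGraph W) (S T : Finset W) :
    edgesIn H S ∪ edgesIn H T ⊆ edgesIn H (S ∪ T) := by
  intro e he
  induction e using Sym2.ind with
  | _ x y =>
  rw [Finset.mem_union, mem_edgesIn, mem_edgesIn] at he
  rw [mem_edgesIn, Finset.mem_union, Finset.mem_union]
  tauto

theorem super (H : SimpleGraph W) (S T : Finset W) :
    (edgesIn H S).card + (edgesIn H T).card ≤
      (edgesIn H (S ∪ T)).card + (edgesIn H (S ∩ T)).card := by
  have h1 := Finset.card_union_add_card_inter (edgesIn H S) (edgesIn H T)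
  rw [edgesIn_inter] at h1
  have h2 := Finset.card_le_card (edgesIn_union_sub H S T)
  omega

theorem super_extra {H : SimpleGraph W} {S T : Finset W} {u w : W} (huw : H.Adj u w) (hu : u ∈ S)
    (hu' : u ∉ T) (hw : w ∈ T) (hw' : w ∉ S) :
    (edgesIn H S).card + (edgesIn H T).card + 1 ≤
      (edgesIn H (S ∪ T)).card + (edgesIn H (S ∩ T)).card := by
  have h1 := Finset.card_union_add_card_inter (edgesIn H S) (edgesIn H T)
  rw [edgesIn_inter] at h1
  have h2 : insert s(u, w) (edgesIn H S ∪ edgesIn H T) ⊆ edgesIn H (S ∪ T) := by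
    intro e he
    rw [Finset.mem_insert] at he
    rcases he with rfl | he
    · rw [mem_edgesIn, Finset.mem_union, Finset.mem_union]
      exact ⟨huw, Or.inl hu, Or.inr hw⟩
    · exact edgesIn_union_sub H S T he
  have h3 : s(u, w) ∉ edgesIn H S ∪ edgesIn H T := by
    rw [Finset.mem_union, mem_edgesIn, mem_edgesIn]
    rintro (⟨-, -, h⟩ | ⟨-, h, -⟩)
    · exact hw' h
    · exact hu' h
  have h4 := Finset.card_le_card h2
  rw [Finset.card_insert_of_notMem h3] at h4
  omega

variable {H : SimpleGraph W}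

theorem union_tight (hs : Sparse H) {S T : Finset W} (hS : Tight H S) (hT : Tight H T)
    (h2 : 2 ≤ (S ∩ T).card) : Tight H (S ∪ T) := by
  have h1 := super H S T
  have h3 := Finset.card_union_add_card_inter S T
  have h4 := hs (S ∩ T) h2
  have h5 : S.card ≤ (S ∪ T).card := Finset.card_le_card Finset.subset_union_left
  have h6 := hs (S ∪ T) (by have := hS.1; omega)
  obtain ⟨h7, h8⟩ := hS
  obtain ⟨h9, h10⟩ := hT
  exact ⟨by omega, by omega⟩

theorem inter_tight (hs : Sparse H) {S T : Finset W} (hS : Tight H S) (hT : Tight H T)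
    (h2 : 3 ≤ (S ∩ T).card) : Tight H (S ∩ T) := by
  have h1 := super H S T
  have h3 := Finset.card_union_add_card_inter S T
  have h4 := hs (S ∩ T) (by omega)
  have h5 : S.card ≤ (S ∪ T).card := Finset.card_le_card Finset.subset_union_left
  have h6 := hs (S ∪ T) (by have := hS.1; omega)
  obtain ⟨h7, h8⟩ := hS
  obtain ⟨h9, h10⟩ := hT
  exact ⟨by omega, by omega⟩

/-- two tight sets with two common vertices have no edge between their differences -/
theorem no_edge (hs : Sparse H) {S T : Finset W} (hS : Tight H S) (hT : Tight H T)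
    (h2 : 2 ≤ (S ∩ T).card) {u w : W} (huw : H.Adj u w) (hu : u ∈ S) (hu' : u ∉ T) (hw : w ∈ T)
    (hw' : w ∉ S) : False := by
  have h1 := super_extra huw hu hu' hw hw'
  have h3 := Finset.card_union_add_card_inter S T
  have h4 := hs (S ∩ T) h2
  have h5 : S.card ≤ (S ∪ T).card := Finset.card_le_card Finset.subset_union_left
  have h6 := hs (S ∪ T) (by have := hS.1; omega)
  obtain ⟨h7, h8⟩ := hS
  obtain ⟨h9, h10⟩ := hT
  omega

theorem two_le_inter {S T : Finset W} {b c : W} (hbc : b ≠ c) (h1 : b ∈ S) (h2 : c ∈ S)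
    (h3 : b ∈ T) (h4 : c ∈ T) : 2 ≤ (S ∩ T).card := by
  have h5 : ({b, c} : Finset W) ⊆ S ∩ T := by
    intro x hx
    rw [Finset.mem_insert, Finset.mem_singleton] at hx
    rw [Finset.mem_inter]
    rcases hx with rfl | rfl
    · exact ⟨h1, h3⟩
    · exact ⟨h2, h4⟩
  have h6 := Finset.card_le_card h5
  rwa [Finset.card_pair hbc] at h6

/-- the body `M` of a blocked edge `uv` (third vertex `w`): a largest tight subset of `B` containing
`u, v` but not `w` -/
def Body (H : SimpleGraph W) (B : Finset W) (u v w : W) (M : Finset W) : Prop :=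
  (Tight H M ∧ M ⊆ B ∧ u ∈ M ∧ v ∈ M ∧ w ∉ M) ∧
    ∀ N, Tight H N → N ⊆ B → u ∈ N → v ∈ N → w ∉ N → N.card ≤ M.card

theorem exists_body {B : Finset W} {u v w : W}
    (h : ∃ N, Tight H N ∧ N ⊆ B ∧ u ∈ N ∧ v ∈ N ∧ w ∉ N) : ∃ M, Body H B u v w M := by
  classical
  let F : Finset (Finset W) := B.powerset.filter
    (fun N => Tight H N ∧ u ∈ N ∧ v ∈ N ∧ w ∉ N)
  have hF : F.Nonempty := by
    obtain ⟨N, h1, h2, h3⟩ := h
    exact ⟨N, Finset.mem_filter.2 ⟨Finset.mem_powerset.2 h2, h1, h3⟩⟩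
  obtain ⟨M, hM, hmax⟩ := Finset.exists_max_image F Finset.card hF
  obtain ⟨h1, h2, h3, h4, h5⟩ := Finset.mem_filter.1 hM
  exact ⟨M, ⟨h2, Finset.mem_powerset.1 h1, h3, h4, h5⟩, fun N k1 k2 k3 k4 k5 =>
    hmax N (Finset.mem_filter.2 ⟨Finset.mem_powerset.2 k2, k1, k3, k4, k5⟩)⟩

/-- the lifting step: an edge unblocked in the body is unblocked in `B` -/
theorem body_step (hs : Sparse H) {B : Finset W} {u v w : W} (hw : w ∈ B) (huw : H.Adj u w)
    (hvw : H.Adj v w) (huv : u ≠ v) {M : Finset W} (hM : Body H B u v w M) {a b c : W}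
    (hb : b ∈ M) (hc : c ∈ M) (hbc : b ≠ c)
    (hne : s(b, c) ≠ s(u, v)) (hun : ∀ N, Tight H N → N ⊆ M → b ∈ N → c ∈ N → a ∈ N) :
    ∀ N, Tight H N → N ⊆ B → b ∈ N → c ∈ N → a ∈ N := by
  obtain ⟨⟨hMt, hMB, huM, hvM, hwM⟩, hmax⟩ := hM
  intro N hN hNB hbN hcN
  have h2 := two_le_inter hbc hbN hcN hb hc
  by_cases h3 : 3 ≤ (N ∩ M).card
  · have h4 := inter_tight hs hN hMt h3
    have h5 := hun (N ∩ M) h4 Finset.inter_subset_right (Finset.mem_inter.2 ⟨hbN, hb⟩)
      (Finset.mem_inter.2 ⟨hcN, hc⟩)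
    exact (Finset.mem_inter.1 h5).1
  · exfalso
    have h4 := union_tight hs hN hMt h2
    have h5 : w ∈ N := by
      by_contra hwN
      have h6 := hmax (N ∪ M) h4 (Finset.union_subset hNB hMB) (Finset.mem_union_right _ huM)
        (Finset.mem_union_right _ hvM) (by
          rw [Finset.mem_union]
          rintro (h | h)
          · exact hwN h
          · exact hwM h)
      have h7 := Finset.card_union_add_card_inter N M
      have h8 := hN.1
      omega
    have h6 : ({b, c} : Finset W) = N ∩ M := by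
      apply Finset.eq_of_subset_of_card_le
      · intro x hx
        rw [Finset.mem_insert, Finset.mem_singleton] at hx
        rw [Finset.mem_inter]
        rcases hx with rfl | rfl
        · exact ⟨hbN, hb⟩
        · exact ⟨hcN, hc⟩
      · rw [Finset.card_pair hbc]
        omega
    have h2' : 2 ≤ (M ∩ N).card := by rwa [Finset.inter_comm]
    have huN : u ∈ N := by
      by_contra huN
      exact no_edge hs hMt hN h2' huw huM huN h5 hwM
    have hvN : v ∈ N := by
      by_contra hvN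
      exact no_edge hs hMt hN h2' hvw hvM hvN h5 hwM
    have hu' : u ∈ ({b, c} : Finset W) := by
      rw [h6]
      exact Finset.mem_inter.2 ⟨huN, huM⟩
    have hv' : v ∈ ({b, c} : Finset W) := by
      rw [h6]
      exact Finset.mem_inter.2 ⟨hvN, hvM⟩
    rw [Finset.mem_insert, Finset.mem_singleton] at hu' hv'
    apply hne
    rcases hu' with rfl | rfl <;> rcases hv' with rfl | rfl
    · exact absurd rfl huv
    · rfl
    · exact Sym2.eq_swap
    · exact absurd rfl huv

/-- the star lemma -/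
theorem star (hs : Sparse H)
    (htri : ∀ S, Tight H S → ∃ x ∈ S, ∃ y ∈ S, ∃ z ∈ S, H.Adj x y ∧ H.Adj y z ∧ H.Adj x z) (n : ℕ) :
    ∀ B : Finset W, B.card = n → Tight H B → ∀ r : Sym2 W,
      ∃ a ∈ B, ∃ b ∈ B, ∃ c ∈ B, H.Adj a b ∧ H.Adj b c ∧ H.Adj a c ∧ s(b, c) ≠ r ∧
        ∀ N, Tight H N → N ⊆ B → b ∈ N → c ∈ N → a ∈ N := by
  induction n using Nat.strong_induction_on with
  | _ n IH =>
  intro B hBn hB r
  -- it suffices to find a body of a triangle edge which does not contain r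
  have suff : ∀ u ∈ B, ∀ v ∈ B, ∀ w ∈ B, H.Adj u v → H.Adj v w → H.Adj u w → ∀ M,
      Body H B u v w M → (∀ b ∈ M, ∀ c ∈ M, b ≠ c → s(b, c) ≠ r) →
      ∃ a ∈ B, ∃ b ∈ B, ∃ c ∈ B, H.Adj a b ∧ H.Adj b c ∧ H.Adj a c ∧ s(b, c) ≠ r ∧
        ∀ N, Tight H N → N ⊆ B → b ∈ N → c ∈ N → a ∈ N := by
    intro u hu v hv w hw huv hvw huw M hM hr
    have hMB := hM.1.2.1
    have hlt : M.card < n := by
      rw [← hBn]
      apply Finset.card_lt_card
      refine ⟨hMB, fun h => hM.1.2.2.2.2 (h hw)⟩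
    obtain ⟨a, ha, b, hb, c, hc, hab, hbc, hac, hne, hun⟩ :=
      IH M.card hlt M rfl hM.1.1 s(u, v)
    exact ⟨a, hMB ha, b, hMB hb, c, hMB hc, hab, hbc, hac, hr b hb c hc hbc.ne,
      body_step hs hw huw hvw huv.ne hM hb hc hbc.ne hne hun⟩
  obtain ⟨x, hx, y, hy, z, hz, hxy, hyz, hxz⟩ := htri B hB
  -- either an edge of the triangle different from r is unblocked or it has a body
  have dich : ∀ u ∈ B, ∀ v ∈ B, ∀ w ∈ B, H.Adj u v → H.Adj v w → H.Adj u w → s(u, v) ≠ r →
      (∃ a ∈ B, ∃ b ∈ B, ∃ c ∈ B, H.Adj a b ∧ H.Adj b c ∧ H.Adj a c ∧ s(b, c) ≠ r ∧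
        ∀ N, Tight H N → N ⊆ B → b ∈ N → c ∈ N → a ∈ N) ∨ ∃ M, Body H B u v w M := by
    intro u hu v hv w hw huv hvw huw hr
    by_cases h : ∃ N, Tight H N ∧ N ⊆ B ∧ u ∈ N ∧ v ∈ N ∧ w ∉ N
    · exact Or.inr (exists_body h)
    · left
      refine ⟨w, hw, u, hu, v, hv, huw.symm, huv, hvw.symm, hr, ?_⟩
      intro N hN hNB huN hvN
      by_contra hwN
      exact h ⟨N, hN, hNB, huN, hvN, hwN⟩
  -- bodies that avoid r because r is an edge at the third vertex
  have avoid : ∀ u v w M, Body H B u v w M → w ∈ r → ∀ b ∈ M, ∀ c ∈ M, b ≠ c → s(b, c) ≠ r := by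
    intro u v w M hM hwr b hb c hc _ h
    rw [← h, Sym2.mem_iff] at hwr
    rcases hwr with rfl | rfl
    · exact hM.1.2.2.2.2 hb
    · exact hM.1.2.2.2.2 hc
  by_cases hrz : s(x, y) = r
  · -- use the edge yz, third vertex x
    have hne : s(y, z) ≠ r := by
      rw [← hrz]
      intro h
      rcases Sym2.eq_iff.1 h with ⟨h, -⟩ | ⟨-, h⟩
      · exact hxy.ne h.symm
      · exact hxz.ne h.symm
    rcases dich y hy z hz x hx hyz hxz.symm hxy.symm hne with h | ⟨M, hM⟩
    · exact h
    · exact suff y hy z hz x hx hyz hxz.symm hxy.symm M hM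
        (avoid _ _ _ M hM (by rw [← hrz]; exact Sym2.mem_mk_left _ _))
  · by_cases hrx : s(y, z) = r
    · have hne : s(x, z) ≠ r := by
        rw [← hrx]
        intro h
        rcases Sym2.eq_iff.1 h with ⟨h, -⟩ | ⟨h, -⟩
        · exact hxy.ne h
        · exact hxz.ne h
      rcases dich x hx z hz y hy hxz hyz.symm hxy hne with h | ⟨M, hM⟩
      · exact h
      · exact suff x hx z hz y hy hxz hyz.symm hxy M hM
          (avoid _ _ _ M hM (by rw [← hrx]; exact Sym2.mem_mk_left _ _))
    · by_cases hry : s(x, z) = r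
      · rcases dich x hx y hy z hz hxy hyz hxz hrz with h | ⟨M, hM⟩
        · exact h
        · exact suff x hx y hy z hz hxy hyz hxz M hM
            (avoid _ _ _ M hM (by rw [← hry]; exact Sym2.mem_mk_right _ _))
      · rcases dich x hx y hy z hz hxy hyz hxz hrz with h | ⟨M, hM⟩
        · exact h
        rcases dich y hy z hz x hx hyz hxz.symm hxy.symm hrx with h | ⟨M', hM'⟩
        · exact h
        by_cases hr : ∀ b ∈ M, ∀ c ∈ M, b ≠ c → s(b, c) ≠ r
        · exact suff x hx y hy z hz hxy hyz hxz M hM hr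
        · push Not at hr
          obtain ⟨p, hp, q, hq, hpq, hpqr⟩ := hr
          refine suff y hy z hz x hx hyz hxz.symm hxy.symm M' hM' ?_
          intro b hb c hc hbc hbcr
          have hpq' : p ∈ M' ∧ q ∈ M' := by
            rw [← hpqr] at hbcr
            rcases Sym2.eq_iff.1 hbcr with ⟨h1, h2⟩ | ⟨h1, h2⟩
            · rw [← h1, ← h2]
              exact ⟨hb, hc⟩
            · rw [← h1, ← h2]
              exact ⟨hc, hb⟩
          have h2 := two_le_inter hpq hp hq hpq'.1 hpq'.2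
          exact no_edge hs hM.1.1 hM'.1.1 h2 hxz hM.1.2.2.1 hM'.1.2.2.2.2 hM'.1.2.2.2.1
            hM.1.2.2.2.2

theorem exists_good (hs : Sparse H)
    (htri : ∀ S, Tight H S → ∃ x ∈ S, ∃ y ∈ S, ∃ z ∈ S, H.Adj x y ∧ H.Adj y z ∧ H.Adj x z)
    {p q : W} (hpq : H.Adj p q) : ∃ a b, GoodEdge H a b := by
  classical
  by_cases h : ∃ S, Tight H S
  · let F : Finset (Finset W) := Finset.univ.filter (fun S => Tight H S)
    have hF : F.Nonempty := by
      obtain ⟨S, hS⟩ := h
      exact ⟨S, Finset.mem_filter.2 ⟨Finset.mem_univ _, hS⟩⟩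
    obtain ⟨B, hB, hmax⟩ := Finset.exists_max_image F Finset.card hF
    have hB' : Tight H B := (Finset.mem_filter.1 hB).2
    obtain ⟨a, ha, b, hb, c, hc, hab, hbc, hac, -, hun⟩ := star hs htri B.card B rfl hB' s(p, p)
    refine ⟨b, c, hbc, Or.inr ⟨a, hab.symm, hac.symm, ?_⟩⟩
    intro S hS hbS hcS
    have h2 := two_le_inter hbc.ne hbS hcS hb hc
    have h3 := union_tight hs hS hB' h2
    have h4 := hmax (S ∪ B) (Finset.mem_filter.2 ⟨Finset.mem_univ _, h3⟩)
    have h5 : B = S ∪ B := Finset.eq_of_subset_of_card_le Finset.subset_union_right h4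
    have h6 : S ⊆ B := by
      rw [h5]
      exact Finset.subset_union_left
    exact hun S hS h6 hbS hcS
  · push Not at h
    exact ⟨p, q, hpq, Or.inl fun S hS _ _ => h S hS⟩

end super

/-- no isolated vertex in a tight set -/
theorem tight_nonisolated {H : SimpleGraph W} (hs : Sparse H) {S : Finset W} (hS : Tight H S) :
    ∀ w ∈ S, ∃ w', H.Adj w w' := by
  classical
  intro w hw
  by_contra hcon
  push Not at hcon
  have h1 : edgesIn H S = edgesIn H (S.erase w) := by
    ext e
    induction e using Sym2.ind with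
    | _ x y =>
    rw [mem_edgesIn, mem_edgesIn, Finset.mem_erase, Finset.mem_erase]
    constructor
    · rintro ⟨h1, h2, h3⟩
      refine ⟨h1, ⟨?_, h2⟩, ⟨?_, h3⟩⟩
      · rintro rfl
        exact hcon _ h1
      · rintro rfl
        exact hcon _ h1.symm
    · rintro ⟨h1, ⟨-, h2⟩, ⟨-, h3⟩⟩
      exact ⟨h1, h2, h3⟩
  have h2 : (S.erase w).card + 1 = S.card := Finset.card_erase_add_one hw
  obtain ⟨h3, h4⟩ := hS
  have h5 := hs (S.erase w) (by omega)
  rw [← h1] at h5
  omega

theorem sparse_main (W : Type*) [Fintype W] : SparseMain W := by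
  classical
  intro C hmono hcon htri H hH hs o ho
  have key : ∀ n : ℕ, ∀ H : SimpleGraph W, (edgesIn H Finset.univ).card = n → C H → Sparse H →
      ∀ o : W → W → ZMod 2, (∀ x y, x ≠ y → o x y + o y x = 1) → ∃ X, Acy H o X := by
    intro n
    induction n using Nat.strong_induction_on with
    | _ n IH =>
    intro H hn hC hs o ho
    by_cases he : ∃ p q, H.Adj p q
    · obtain ⟨p, q, hpq⟩ := he
      obtain ⟨a, b, hg⟩ := exists_good hs (fun S hS => htri H S hC hS.1 hS.2
        (tight_nonisolated hs hS)) hpq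
      refine contract_lift hs hg o ho ?_
      intro o' ho'
      refine IH _ ?_ (contract H a b) rfl (hcon H a b hg.1 hC) (contract_sparse hs hg) o' ho'
      rw [← hn]
      exact contract_edges_lt hg.1
    · push Not at he
      refine ⟨fun _ => 0, ?_⟩
      intro u hu
      obtain ⟨v, h1, -⟩ := TransGen.head'_iff.1 hu
      exact he _ _ h1.1
  exact key _ H rfl hH hs o ho

end Pool.Agent.H27.PM
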